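import Mathlib

set_option autoImplicit false

namespace Pool.Agent.FracEM.PMT

open Finset

/-- pairwise disjoint family -/
def Matching {n : ℕ} (M : Finset (Finset (Fin n))) : Prop :=
  ∀ e ∈ M, ∀ e' ∈ M, e ≠ e' → Disjoint e e'

/-- `W` is partitioned by some members of `H` -/
def PMon {n : ℕ} (H : Finset (Finset (Fin n))) (W : Finset (Fin n)) : Prop :=
  ∃ M : Finset (Finset (Fin n)), M ⊆ H ∧ Matching M ∧ M.biUnion id = W

/-- degree of a vertex -/
def deg {n : ℕ} (H : Finset (Finset (Fin n))) (v : Fin n) : ℕ := (H.filter (fun e => v ∈ e)).card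

/-- absorbing set for single `k`-sets -/
def AbsSet {n : ℕ} (H : Finset (Finset (Fin n))) (k : ℕ) (Z : Finset (Fin n)) : Prop :=
  PMon H Z ∧ ∀ A : Finset (Fin n), A.card = k → Disjoint A Z → PMon H (Z ∪ A)

/-- vertex set of a gadget -/
def gv {k n : ℕ} (u : Fin k → Fin n) (S : Fin k → Finset (Fin n)) : Finset (Fin n) :=
  univ.image u ∪ univ.biUnion S

/-- valid gadget -/
structure GV {k n : ℕ} (H : Finset (Finset (Fin n))) (u : Fin k → Fin n)
    (S : Fin k → Finset (Fin n)) : Prop where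
  inj : Function.Injective u
  hu : univ.image u ∈ H
  hS : ∀ i, insert (u i) (S i) ∈ H
  huS : ∀ i j, u i ∉ S j
  hSS : ∀ i j, i ≠ j → Disjoint (S i) (S j)


/-- the space of candidate gadgets -/
def Om (k n : ℕ) : Finset ((Fin k → Fin n) × (Fin k → Finset (Fin n))) :=
  (univ : Finset (Fin k → Fin n)) ×ˢ
    Fintype.piFinset (fun _ : Fin k => (univ : Finset (Fin n)).powersetCard (k - 1))

/-- link of `u` inside `X` -/
def link {n : ℕ} (H : Finset (Finset (Fin n))) (r : ℕ) (u : Fin n) (X : Finset (Fin n)) :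
    Finset (Finset (Fin n)) :=
  (X.powersetCard r).filter (fun S => insert u S ∈ H)

end Pool.Agent.FracEM.PMT
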