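import Mathlib
import Pool.Agent.FracEM.PM.Defs

set_option autoImplicit false

namespace Pool.Agent.FracEM.PMT

open Finset

theorem PMon_empty {n : ℕ} (H : Finset (Finset (Fin n))) : PMon H ∅ :=
  ⟨∅, Finset.empty_subset _, fun e he => absurd he (Finset.notMem_empty e), rfl⟩

theorem PMon_union {n : ℕ} (H : Finset (Finset (Fin n))) (W1 W2 : Finset (Fin n))
    (h : Disjoint W1 W2) (h1 : PMon H W1) (h2 : PMon H W2) : PMon H (W1 ∪ W2) := by
  obtain ⟨M1, hM1, hm1, hW1⟩ := h1
  obtain ⟨M2, hM2, hm2, hW2⟩ := h2
  have s1 : ∀ e ∈ M1, e ⊆ W1 := fun e he => by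
    rw [← hW1]; exact Finset.subset_biUnion_of_mem id he
  have s2 : ∀ e ∈ M2, e ⊆ W2 := fun e he => by
    rw [← hW2]; exact Finset.subset_biUnion_of_mem id he
  refine ⟨M1 ∪ M2, Finset.union_subset hM1 hM2, ?_, ?_⟩
  · intro e he e' he' hne
    rcases Finset.mem_union.1 he with he | he <;> rcases Finset.mem_union.1 he' with he' | he'
    · exact hm1 e he e' he' hne
    · exact Disjoint.mono (s1 e he) (s2 e' he') h
    · exact Disjoint.mono (s2 e he) (s1 e' he') h.symm
    · exact hm2 e he e' he' hne
  · rw [← hW1, ← hW2]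
    ext x
    simp only [Finset.mem_biUnion, Finset.mem_union, id]
    constructor
    · rintro ⟨e, he | he, hx⟩
      · exact Or.inl ⟨e, he, hx⟩
      · exact Or.inr ⟨e, he, hx⟩
    · rintro (⟨e, he, hx⟩ | ⟨e, he, hx⟩)
      · exact ⟨e, Or.inl he, hx⟩
      · exact ⟨e, Or.inr he, hx⟩

theorem PMon_card {n k : ℕ} (H : Finset (Finset (Fin n))) (hk : ∀ e ∈ H, e.card = k)
    (W : Finset (Fin n)) (h : PMon H W) : k ∣ W.card := by
  obtain ⟨M, hM, hm, hW⟩ := h
  have h1 : (M.biUnion id).card = ∑ e ∈ M, (id e).card :=
    Finset.card_biUnion (fun x hx y hy hne => hm x hx y hy hne)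
  rw [← hW, h1]
  refine Finset.dvd_sum fun e he => ?_
  rw [id, hk e (hM he)]

/-- split a set into k-sets -/
theorem exists_blocks {n : ℕ} (k q : ℕ) (hk : 1 ≤ k) (U : Finset (Fin n)) (hU : U.card = k * q) :
    ∃ Q : Finset (Finset (Fin n)), Matching Q ∧ (∀ e ∈ Q, e.card = k) ∧ Q.biUnion id = U ∧
      Q.card = q := by
  induction q generalizing U with
  | zero =>
    rw [mul_zero, Finset.card_eq_zero] at hU
    subst hU
    exact ⟨∅, fun e he => absurd he (Finset.notMem_empty e),
      fun e he => absurd he (Finset.notMem_empty e), rfl, rfl⟩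
  | succ q ih =>
    have hle : k ≤ U.card := by rw [hU, mul_add, mul_one]; exact Nat.le_add_left _ _
    obtain ⟨e, heU, hek⟩ := Finset.exists_subset_card_eq hle
    have hc : (U \ e).card = k * q := by
      rw [Finset.card_sdiff_of_subset heU, hU, hek, mul_add, mul_one, Nat.add_sub_cancel]
    obtain ⟨Q, hQm, hQk, hQU, hQq⟩ := ih (U \ e) hc
    have hsub : ∀ e' ∈ Q, e' ⊆ U \ e := fun e' he' => by
      rw [← hQU]; exact Finset.subset_biUnion_of_mem id he'
    have hdisj : ∀ e' ∈ Q, Disjoint e e' := fun e' he' =>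
      (Finset.disjoint_of_subset_left (hsub e' he') Finset.sdiff_disjoint).symm
    have hne : e ∉ Q := by
      intro h
      have h1 := hdisj e h
      rw [Finset.disjoint_self_iff_empty] at h1
      rw [h1, Finset.card_empty] at hek
      omega
    refine ⟨insert e Q, ?_, ?_, ?_, ?_⟩
    · intro a ha b hb hab
      rcases Finset.mem_insert.1 ha with ha | ha <;> rcases Finset.mem_insert.1 hb with hb | hb
      · exact absurd (ha.trans hb.symm) hab
      · rw [ha]; exact hdisj b hb
      · rw [hb]; exact (hdisj a ha).symm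
      · exact hQm a ha b hb hab
    · intro a ha
      rcases Finset.mem_insert.1 ha with ha | ha
      · rw [ha, hek]
      · exact hQk a ha
    · rw [Finset.biUnion_insert, hQU, id, Finset.union_sdiff_of_subset heU]
    · rw [Finset.card_insert_of_notMem hne, hQq]

/-- prove this one; PMon_union above may be used without proof -/
theorem abs_multi {n k : ℕ} (hk : 1 ≤ k) (H : Finset (Finset (Fin n))) :
    ∀ (R : ℕ) (Z : Fin R → Finset (Fin n)), (∀ i j, i ≠ j → Disjoint (Z i) (Z j)) →
      (∀ j, AbsSet H k (Z j)) → ∀ (q : ℕ), q ≤ R → ∀ U : Finset (Fin n), U.card = k * q →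
      (∀ j, Disjoint U (Z j)) → PMon H (univ.biUnion Z ∪ U) := by
  intro R
  induction R with
  | zero =>
    intro Z _ _ q hq U hU _
    have hq0 : q = 0 := by omega
    subst hq0
    have hU0 : U = ∅ := by
      rw [← Finset.card_eq_zero, hU]; simp
    subst hU0
    refine ⟨∅, by simp, ?_, ?_⟩
    · intro e he; simp at he
    · simp
  | succ R ih =>
    intro Z hZ hA q hq U hU hUZ
    have hsplit : (univ : Finset (Fin (R+1))).biUnion Z
        = Z 0 ∪ (univ : Finset (Fin R)).biUnion (fun i => Z i.succ) := by
      ext x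
      simp only [Finset.mem_biUnion, Finset.mem_univ, true_and, Finset.mem_union]
      constructor
      · rintro ⟨i, hi⟩
        rcases Fin.eq_zero_or_eq_succ i with h | ⟨j, h⟩
        · left; rw [h] at hi; exact hi
        · right; exact ⟨j, by rw [← h]; exact hi⟩
      · rintro (h | ⟨j, hj⟩)
        · exact ⟨0, h⟩
        · exact ⟨j.succ, hj⟩
    have hZ0 : Disjoint (Z 0) ((univ : Finset (Fin R)).biUnion (fun i => Z i.succ)) := by
      rw [Finset.disjoint_biUnion_right]
      intro i _
      exact hZ 0 i.succ (Fin.succ_ne_zero i).symm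
    rcases Nat.eq_zero_or_pos q with hq0 | hqpos
    · subst hq0
      have hU0 : U = ∅ := by
        rw [← Finset.card_eq_zero, hU]; simp
      subst hU0
      have h2 := ih (fun i => Z i.succ) (fun i j hij => hZ _ _ (fun h => hij (Fin.succ_injective _ h)))
        (fun j => hA _) 0 (Nat.zero_le _) ∅ (by simp) (fun j => by simp)
      rw [Finset.union_empty] at h2 ⊢
      rw [hsplit]
      exact PMon_union H _ _ hZ0 (hA 0).1 h2
    · obtain ⟨q', rfl⟩ : ∃ q', q = q' + 1 := ⟨q - 1, by omega⟩
      have hkU : k ≤ U.card := by rw [hU]; exact Nat.le_mul_of_pos_right k hqpos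
      obtain ⟨A, hAU, hAk⟩ := Finset.exists_subset_card_eq hkU
      have hAZ : ∀ j, Disjoint A (Z j) := fun j => (hUZ j).mono_left hAU
      have h1 := (hA 0).2 A hAk (hAZ 0)
      have hcard : (U \ A).card = k * q' := by
        rw [Finset.card_sdiff_of_subset hAU, hU, hAk, Nat.mul_succ]; omega
      have h2 := ih (fun i => Z i.succ) (fun i j hij => hZ _ _ (fun h => hij (Fin.succ_injective _ h)))
        (fun j => hA _) q' (by omega) (U \ A) hcard
        (fun j => (hUZ j.succ).mono_left Finset.sdiff_subset)
      have hd : Disjoint (Z 0 ∪ A)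
          ((univ : Finset (Fin R)).biUnion (fun i => Z i.succ) ∪ (U \ A)) := by
        rw [Finset.disjoint_union_left, Finset.disjoint_union_right, Finset.disjoint_union_right]
        refine ⟨⟨hZ0, ((hUZ 0).mono_left Finset.sdiff_subset).symm⟩, ?_, Finset.disjoint_sdiff⟩
        rw [Finset.disjoint_biUnion_right]
        intro i _
        exact hAZ i.succ
      have h3 := PMon_union H _ _ hd h1 h2
      have he : (Z 0 ∪ A) ∪ ((univ : Finset (Fin R)).biUnion (fun i => Z i.succ) ∪ (U \ A))
          = (univ : Finset (Fin (R+1))).biUnion Z ∪ U := by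
        rw [hsplit]
        ext x
        simp only [Finset.mem_union, Finset.mem_sdiff]
        constructor
        · rintro ((h | h) | (h | h))
          · exact Or.inl (Or.inl h)
          · exact Or.inr (hAU h)
          · exact Or.inl (Or.inr h)
          · exact Or.inr h.1
        · rintro ((h | h) | h)
          · exact Or.inl (Or.inl h)
          · exact Or.inr (Or.inl h)
          · by_cases hx : x ∈ A
            · exact Or.inl (Or.inr hx)
            · exact Or.inr (Or.inr ⟨h, hx⟩)
      rw [← he]
      exact h3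

theorem gv_pm {k n : ℕ} (H : Finset (Finset (Fin n))) (u : Fin k → Fin n)
    (S : Fin k → Finset (Fin n)) (h : GV H u S) : PMon H (gv u S) := by
  classical
  refine ⟨univ.image (fun i => insert (u i) (S i)), ?_, ?_, ?_⟩
  · intro e he
    rw [Finset.mem_image] at he
    obtain ⟨i, _, rfl⟩ := he
    exact h.hS i
  · intro e he e' he' hne
    rw [Finset.mem_image] at he he'
    obtain ⟨i, _, rfl⟩ := he
    obtain ⟨j, _, rfl⟩ := he'
    have hij : i ≠ j := by
      rintro rfl
      exact hne rfl
    rw [Finset.disjoint_left]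
    intro a ha hb
    rw [Finset.mem_insert] at ha hb
    rcases ha with ha | ha
    · rcases hb with hb | hb
      · exact hij (h.inj (ha.symm.trans hb))
      · subst ha
        exact h.huS i j hb
    · rcases hb with hb | hb
      · subst hb
        exact h.huS j i ha
      · exact Finset.disjoint_left.mp (h.hSS i j hij) ha hb
  · ext a
    simp only [gv, Finset.mem_biUnion, Finset.mem_image, Finset.mem_univ, true_and, id,
      Finset.mem_union]
    constructor
    · rintro ⟨e, ⟨i, rfl⟩, ha⟩
      rw [Finset.mem_insert] at ha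
      rcases ha with ha | ha
      · exact Or.inl ⟨i, ha.symm⟩
      · exact Or.inr ⟨i, ha⟩
    · rintro (⟨i, hi⟩ | ⟨i, hi⟩)
      · exact ⟨_, ⟨i, rfl⟩, by rw [Finset.mem_insert]; exact Or.inl hi.symm⟩
      · exact ⟨_, ⟨i, rfl⟩, by rw [Finset.mem_insert]; exact Or.inr hi⟩

theorem gv_abs {k n : ℕ} (H : Finset (Finset (Fin n))) (u : Fin k → Fin n)
    (S : Fin k → Finset (Fin n)) (h : GV H u S) (x : Fin k → Fin n)
    (hx : Function.Injective x) (hxg : Disjoint (univ.image x) (gv u S))
    (hxS : ∀ i, insert (x i) (S i) ∈ H) : PMon H (gv u S ∪ univ.image x) := by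
  classical
  have hxu : ∀ i j, x i ≠ u j := by
    intro i j hij
    refine (Finset.disjoint_left.mp hxg (Finset.mem_image_of_mem x (Finset.mem_univ i))) ?_
    rw [gv, Finset.mem_union]
    left
    rw [hij]
    exact Finset.mem_image_of_mem u (Finset.mem_univ j)
  have hxS' : ∀ i j, x i ∉ S j := by
    intro i j hij
    refine (Finset.disjoint_left.mp hxg (Finset.mem_image_of_mem x (Finset.mem_univ i))) ?_
    rw [gv, Finset.mem_union]
    right
    rw [Finset.mem_biUnion]
    exact ⟨j, Finset.mem_univ j, hij⟩
  have hdu : ∀ i, Disjoint (univ.image u) (insert (x i) (S i)) := by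
    intro i
    rw [Finset.disjoint_left]
    intro a ha hb
    rw [Finset.mem_image] at ha
    obtain ⟨j, _, rfl⟩ := ha
    rw [Finset.mem_insert] at hb
    rcases hb with hb | hb
    · exact hxu i j hb.symm
    · exact h.huS j i hb
  refine ⟨insert (univ.image u) (univ.image (fun i => insert (x i) (S i))), ?_, ?_, ?_⟩
  · intro e he
    rw [Finset.mem_insert, Finset.mem_image] at he
    rcases he with rfl | ⟨i, _, rfl⟩
    · exact h.hu
    · exact hxS i
  · intro e he e' he' hne
    rw [Finset.mem_insert, Finset.mem_image] at he he'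
    rcases he with rfl | ⟨i, _, rfl⟩
    · rcases he' with rfl | ⟨j, _, rfl⟩
      · exact absurd rfl hne
      · exact hdu j
    · rcases he' with rfl | ⟨j, _, rfl⟩
      · exact (hdu i).symm
      · have hij : i ≠ j := by
          rintro rfl
          exact hne rfl
        rw [Finset.disjoint_left]
        intro a ha hb
        rw [Finset.mem_insert] at ha hb
        rcases ha with ha | ha
        · rcases hb with hb | hb
          · exact hij (hx (ha.symm.trans hb))
          · subst ha
            exact hxS' i j hb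
        · rcases hb with hb | hb
          · subst hb
            exact hxS' j i ha
          · exact Finset.disjoint_left.mp (h.hSS i j hij) ha hb
  · ext a
    simp only [gv, Finset.mem_biUnion, Finset.mem_insert, Finset.mem_image, Finset.mem_univ,
      true_and, id, Finset.mem_union]
    constructor
    · rintro ⟨e, he, ha⟩
      rcases he with rfl | ⟨i, rfl⟩
      · rw [Finset.mem_image] at ha
        obtain ⟨j, _, hj⟩ := ha
        exact Or.inl (Or.inl ⟨j, hj⟩)
      · rw [Finset.mem_insert] at ha
        rcases ha with ha | ha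
        · exact Or.inr ⟨i, ha.symm⟩
        · exact Or.inl (Or.inr ⟨i, ha⟩)
    · rintro ((⟨i, hi⟩ | ⟨i, hi⟩) | ⟨i, hi⟩)
      · exact ⟨_, Or.inl rfl, Finset.mem_image.mpr ⟨i, Finset.mem_univ i, hi⟩⟩
      · exact ⟨_, Or.inr ⟨i, rfl⟩, by rw [Finset.mem_insert]; exact Or.inr hi⟩
      · exact ⟨_, Or.inr ⟨i, rfl⟩, by rw [Finset.mem_insert]; exact Or.inl hi.symm⟩

theorem gv_card {k n : ℕ} (H : Finset (Finset (Fin n))) (hk : ∀ e ∈ H, e.card = k)
    (u : Fin k → Fin n) (S : Fin k → Finset (Fin n)) (h : GV H u S) :
    (gv u S).card ≤ k * k := by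
  classical
  have h1 : ∀ i, (S i).card = k - 1 := by
    intro i
    have h2 := hk _ (h.hS i)
    rw [Finset.card_insert_of_notMem (h.huS i i)] at h2
    omega
  have h3 : (univ.image u).card ≤ k := by
    calc (univ.image u).card ≤ (univ : Finset (Fin k)).card := Finset.card_image_le
      _ = k := by simp
  have h4 : (univ.biUnion S).card ≤ k * (k - 1) := by
    calc (univ.biUnion S).card ≤ ∑ i, (S i).card := Finset.card_biUnion_le
      _ = ∑ _i : Fin k, (k - 1) := Finset.sum_congr rfl (fun i _ => h1 i)
      _ = k * (k - 1) := by simp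
  calc (gv u S).card ≤ (univ.image u).card + (univ.biUnion S).card := Finset.card_union_le _ _
    _ ≤ k + k * (k - 1) := by omega
    _ = k * k := by
      rcases k with _ | k
      · simp
      · simp only [Nat.add_sub_cancel]; ring

open Classical in
/-- prove this one (greedy cover); the two lemmas above may be used without proof -/
theorem greedy {n k : ℕ} (H : Finset (Finset (Fin n))) (X : Finset (Fin k → Fin n))
    (b c : ℝ) (g0 : ℕ) (hc0 : 0 < c) (hc1 : c ≤ 1)
    (hstep : ∀ F' : Finset (Fin n), (F'.card : ℝ) ≤ b → ∀ Y ⊆ X, Y.Nonempty →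
      ∃ W : Finset (Fin n), Disjoint W F' ∧ W.card ≤ g0 ∧ PMon H W ∧
        c * (Y.card : ℝ) ≤ ((Y.filter (fun x => Disjoint (univ.image x) W →
          PMon H (W ∪ univ.image x))).card : ℝ))
    (F : Finset (Fin n)) (t : ℕ) (hb : (F.card : ℝ) + t * g0 ≤ b)
    (ht : (1 - c) ^ t * (X.card : ℝ) < 1) :
    ∃ Z : Finset (Fin n), Disjoint Z F ∧ Z.card ≤ t * g0 ∧ PMon H Z ∧
      ∀ x ∈ X, Disjoint (univ.image x) Z → PMon H (Z ∪ univ.image x) := by
  have key : ∀ j : ℕ, j ≤ t → ∃ Z : Finset (Fin n), Disjoint Z F ∧ Z.card ≤ j * g0 ∧ PMon H Z ∧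
      ((X.filter (fun x => ¬ (Disjoint (univ.image x) Z → PMon H (Z ∪ univ.image x)))).card : ℝ) ≤
        (1 - c) ^ j * (X.card : ℝ) := by
    intro j
    induction j with
    | zero =>
      intro _
      refine ⟨∅, Finset.disjoint_empty_left F, by simp, PMon_empty H, ?_⟩
      rw [pow_zero, one_mul]
      exact_mod_cast Finset.card_filter_le _ _
    | succ j ih =>
      intro hj
      obtain ⟨Z, hZF, hZc, hZP, hZY⟩ := ih (by omega)
      obtain ⟨Y, hY⟩ : ∃ Y, Y = X.filter
        (fun x => ¬ (Disjoint (univ.image x) Z → PMon H (Z ∪ univ.image x))) := ⟨_, rfl⟩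
      rw [← hY] at hZY
      have hcpos : (0 : ℝ) ≤ 1 - c := by linarith
      by_cases hYe : Y.Nonempty
      · have hF' : ((F ∪ Z).card : ℝ) ≤ b := by
          have h1 : (F ∪ Z).card ≤ F.card + Z.card := Finset.card_union_le _ _
          have h2 : j * g0 ≤ t * g0 := Nat.mul_le_mul_right _ (by omega)
          have h3 : (F ∪ Z).card ≤ F.card + t * g0 := by omega
          have h4 : ((F ∪ Z).card : ℝ) ≤ (F.card : ℝ) + t * g0 := by exact_mod_cast h3
          linarith
        obtain ⟨W, hWF, hWc, hWP, hWY⟩ := hstep (F ∪ Z) hF' Y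
          (by rw [hY]; exact Finset.filter_subset _ _) hYe
        rw [Finset.disjoint_union_right] at hWF
        refine ⟨Z ∪ W, Finset.disjoint_union_left.2 ⟨hZF, hWF.1⟩, ?_,
          PMon_union H Z W hWF.2.symm hZP hWP, ?_⟩
        · have h1 : (Z ∪ W).card ≤ Z.card + W.card := Finset.card_union_le _ _
          rw [Nat.succ_mul]
          omega
        · obtain ⟨Q, hQ⟩ : ∃ Q, Q = Y.filter (fun x => Disjoint (univ.image x) W →
            PMon H (W ∪ univ.image x)) := ⟨_, rfl⟩
          rw [← hQ] at hWY
          have hsub : X.filter (fun x => ¬ (Disjoint (univ.image x) (Z ∪ W) →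
              PMon H (Z ∪ W ∪ univ.image x))) ⊆ Y \ Q := by
            intro x hx
            rw [Finset.mem_filter] at hx
            obtain ⟨hxX, hx2⟩ := hx
            rw [Finset.mem_sdiff]
            constructor
            · rw [hY, Finset.mem_filter]
              refine ⟨hxX, fun hsat => hx2 fun hd => ?_⟩
              rw [Finset.disjoint_union_right] at hd
              have h1 := hsat hd.1
              have h2 := PMon_union H (Z ∪ univ.image x) W
                (Finset.disjoint_union_left.2 ⟨hWF.2.symm, hd.2⟩) h1 hWP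
              have h3 : Z ∪ univ.image x ∪ W = Z ∪ W ∪ univ.image x := by
                ext y
                simp only [Finset.mem_union]
                tauto
              rwa [h3] at h2
            · intro hxQ
              rw [hQ, Finset.mem_filter] at hxQ
              refine hx2 fun hd => ?_
              rw [Finset.disjoint_union_right] at hd
              have h1 := hxQ.2 hd.2
              have h2 := PMon_union H Z (W ∪ univ.image x)
                (Finset.disjoint_union_right.2 ⟨hWF.2.symm, hd.1.symm⟩) hZP h1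
              have h3 : Z ∪ (W ∪ univ.image x) = Z ∪ W ∪ univ.image x :=
                (Finset.union_assoc _ _ _).symm
              rwa [h3] at h2
          have hQY : Q ⊆ Y := by rw [hQ]; exact Finset.filter_subset _ _
          have h1 := Finset.card_le_card hsub
          rw [Finset.card_sdiff_of_subset hQY] at h1
          have h2 := Finset.card_le_card hQY
          have h3 : ((X.filter (fun x => ¬ (Disjoint (univ.image x) (Z ∪ W) →
              PMon H (Z ∪ W ∪ univ.image x)))).card : ℝ) ≤ (Y.card : ℝ) - (Q.card : ℝ) := by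
            rw [← Nat.cast_sub h2]
            exact_mod_cast h1
          rw [pow_succ]
          have h4 : (1 - c) * (Y.card : ℝ) ≤ (1 - c) * ((1 - c) ^ j * (X.card : ℝ)) :=
            mul_le_mul_of_nonneg_left hZY hcpos
          linarith
      · rw [Finset.not_nonempty_iff_eq_empty] at hYe
        refine ⟨Z, hZF, ?_, hZP, ?_⟩
        · rw [Nat.succ_mul]
          omega
        · rw [← hY, hYe, Finset.card_empty]
          have h1 : (0 : ℝ) ≤ (X.card : ℝ) := Nat.cast_nonneg _
          have h2 := pow_nonneg hcpos (j + 1)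
          push_cast
          exact mul_nonneg h2 h1
  obtain ⟨Z, hZF, hZc, hZP, hZY⟩ := key t le_rfl
  refine ⟨Z, hZF, hZc, hZP, ?_⟩
  have h1 := hZY.trans_lt ht
  have h2 : (X.filter (fun x => ¬ (Disjoint (univ.image x) Z →
      PMon H (Z ∪ univ.image x)))).card < 1 := by exact_mod_cast h1
  rw [Nat.lt_one_iff, Finset.card_eq_zero] at h2
  intro x hx
  by_contra h3
  have h4 : x ∈ X.filter (fun x => ¬ (Disjoint (univ.image x) Z →
      PMon H (Z ∪ univ.image x))) := Finset.mem_filter.2 ⟨hx, h3⟩
  rw [h2] at h4
  exact absurd h4 (Finset.notMem_empty x)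

end Pool.Agent.FracEM.PMT
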