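import Mathlib
import Pool.Agent.FracEM.PM.Defs

set_option autoImplicit false

namespace Pool.Agent.FracEM.PMT

open Finset

/-- common link is large -/
theorem common_link (k : ℕ) (hk : 2 ≤ k) (η : ℝ) (hη : 0 < η) :
    ∃ n0 : ℕ, ∀ n : ℕ, n0 ≤ n → ∀ H : Finset (Finset (Fin n)), (∀ e ∈ H, e.card = k) →
      (∀ v, (1 / 2 + η) * ((n - 1).choose (k - 1) : ℕ) ≤ (deg H v : ℝ)) → ∀ a b : Fin n,
      η * ((n.choose (k - 1) : ℕ) : ℝ) ≤
        ((((univ : Finset (Fin n)).powersetCard (k - 1)).filter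
          (fun S => insert a S ∈ H ∧ insert b S ∈ H)).card : ℝ) := by
  obtain ⟨n1, hn1⟩ := exists_nat_ge ((1 + 2 * η) * (k - 1) / η)
  refine ⟨max n1 (k + 1), ?_⟩
  intro n hn H hcard hdeg a b
  have hnn1 : n1 ≤ n := (le_max_left _ _).trans hn
  have hnk : k + 1 ≤ n := (le_max_right _ _).trans hn
  set N : Fin n → Finset (Finset (Fin n)) := fun v =>
    ((univ : Finset (Fin n)).powersetCard (k - 1)).filter (fun S => insert v S ∈ H) with hN
  have hNdeg : ∀ v, deg H v ≤ (N v).card := by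
    intro v
    unfold deg
    apply Finset.card_le_card_of_injOn (fun e => e.erase v)
    · intro e he
      rw [Finset.mem_coe, Finset.mem_filter] at he
      rw [Finset.mem_coe, hN, Finset.mem_filter, Finset.mem_powersetCard]
      refine ⟨⟨Finset.subset_univ _, ?_⟩, ?_⟩
      · rw [Finset.card_erase_of_mem he.2, hcard e he.1]
      · rw [Finset.insert_erase he.2]
        exact he.1
    · intro e he e' he' heq
      rw [Finset.mem_coe, Finset.mem_filter] at he he'
      have h1 : e.erase v = e'.erase v := heq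
      rw [← Finset.insert_erase he.2, ← Finset.insert_erase he'.2, h1]
  have hinter : ((univ : Finset (Fin n)).powersetCard (k - 1)).filter
      (fun S => insert a S ∈ H ∧ insert b S ∈ H) = N a ∩ N b := by
    ext S
    simp only [hN, Finset.mem_filter, Finset.mem_inter]
    tauto
  have hunion : (N a ∪ N b).card ≤ n.choose (k - 1) := by
    have h1 : N a ∪ N b ⊆ (univ : Finset (Fin n)).powersetCard (k - 1) :=
      Finset.union_subset (Finset.filter_subset _ _) (Finset.filter_subset _ _)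
    have h2 := Finset.card_le_card h1
    rwa [Finset.card_powersetCard, Finset.card_univ, Fintype.card_fin] at h2
  have hie := Finset.card_union_add_card_inter (N a) (N b)
  have hie' : ((N a).card : ℝ) + (N b).card ≤ (n.choose (k - 1) : ℝ) + ((N a ∩ N b).card : ℝ) := by
    have h3 : (N a).card + (N b).card ≤ n.choose (k - 1) + (N a ∩ N b).card := by omega
    exact_mod_cast h3
  rw [hinter]
  have ha : (1 / 2 + η) * ((n - 1).choose (k - 1) : ℝ) ≤ ((N a).card : ℝ) :=
    (hdeg a).trans (by exact_mod_cast hNdeg a)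
  have hb : (1 / 2 + η) * ((n - 1).choose (k - 1) : ℝ) ≤ ((N b).card : ℝ) :=
    (hdeg b).trans (by exact_mod_cast hNdeg b)
  -- binomial identity
  obtain ⟨m, rfl⟩ : ∃ m, n = m + 1 := ⟨n - 1, by omega⟩
  have hid := Nat.choose_mul_succ_eq m (k - 1)
  have hid' : (m.choose (k - 1) : ℝ) * ((m : ℝ) + 1) =
      ((m + 1).choose (k - 1) : ℝ) * ((m : ℝ) + 1 - ((k : ℝ) - 1)) := by
    have h1 : ((m.choose (k - 1) * (m + 1) : ℕ) : ℝ) =
        (((m + 1).choose (k - 1) * (m + 1 - (k - 1)) : ℕ) : ℝ) := by rw [hid]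
    rw [Nat.cast_mul, Nat.cast_mul, Nat.cast_sub (by omega), Nat.cast_sub (by omega)] at h1
    push_cast at h1
    exact h1
  have hm : (m + 1 : ℝ) * η ≥ (1 + 2 * η) * (k - 1) := by
    have h1 : (n1 : ℝ) ≤ (m + 1 : ℝ) := by exact_mod_cast hnn1
    have h2 := hn1.trans h1
    rw [div_le_iff₀ hη] at h2
    exact h2
  have hC : (0 : ℝ) ≤ ((m + 1).choose (k - 1) : ℝ) := by positivity
  have hmpos : (0 : ℝ) < (m : ℝ) + 1 := by positivity
  have hmain : (1 + η) * ((m + 1).choose (k - 1) : ℝ) ≤ (1 + 2 * η) * (m.choose (k - 1) : ℝ) := by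
    have h1 : (1 + η) * ((m + 1).choose (k - 1) : ℝ) * ((m : ℝ) + 1) ≤
        (1 + 2 * η) * (m.choose (k - 1) : ℝ) * ((m : ℝ) + 1) := by
      have e1 : (1 + 2 * η) * (m.choose (k - 1) : ℝ) * ((m : ℝ) + 1) =
          (1 + 2 * η) * ((m.choose (k - 1) : ℝ) * ((m : ℝ) + 1)) := by ring
      rw [e1, hid']
      nlinarith
    exact le_of_mul_le_mul_right h1 hmpos
  have e3 : m + 1 - 1 = m := by omega
  rw [e3] at ha hb
  linarith

theorem me_count {k n : ℕ} (H : Finset (Finset (Fin n))) (hH : ∀ e ∈ H, e.card = k) :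
    H.card ≤ ((univ : Finset (Fin k → Fin n)).filter (fun u => univ.image u ∈ H)).card := by
  classical
  refine (Finset.card_le_card (t := ((univ : Finset (Fin k → Fin n)).filter
    (fun u => univ.image u ∈ H)).image (fun u => univ.image u)) ?_).trans Finset.card_image_le
  intro e he
  rw [mem_image]
  have himg : univ.image (fun i => e.orderEmbOfFin (hH e he) i) = e := by
    ext v
    rw [mem_image]
    constructor
    · rintro ⟨i, _, rfl⟩
      exact e.orderEmbOfFin_mem (hH e he) i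
    · intro hv
      have : v ∈ Set.range (e.orderEmbOfFin (hH e he)) := by
        rw [Finset.range_orderEmbOfFin]
        exact hv
      obtain ⟨i, hi⟩ := this
      exact ⟨i, mem_univ _, hi⟩
  refine ⟨fun i => e.orderEmbOfFin (hH e he) i, ?_, himg⟩
  rw [mem_filter, himg]
  exact ⟨mem_univ _, he⟩

theorem me_double {k n : ℕ} (H : Finset (Finset (Fin n))) (hH : ∀ e ∈ H, e.card = k) :
    ∑ v : Fin n, deg H v = H.card * k := by
  classical
  unfold deg
  simp_rw [Finset.card_filter]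
  rw [Finset.sum_comm]
  have : ∀ e ∈ H, ∑ v : Fin n, (if v ∈ e then 1 else 0) = k := by
    intro e he
    rw [← hH e he]
    simp
  rw [Finset.sum_congr rfl this, Finset.sum_const, smul_eq_mul]

/-- many ordered edges -/
theorem many_edges (k : ℕ) (hk : 2 ≤ k) (η : ℝ) (hη : 0 < η) :
    ∃ c : ℝ, 0 < c ∧ ∃ n0 : ℕ, ∀ n : ℕ, n0 ≤ n → ∀ H : Finset (Finset (Fin n)),
      (∀ e ∈ H, e.card = k) →
      (∀ v, (1 / 2 + η) * ((n - 1).choose (k - 1) : ℕ) ≤ (deg H v : ℝ)) →
      c * (n : ℝ) ^ k ≤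
        (((univ : Finset (Fin k → Fin n)).filter (fun u => univ.image u ∈ H)).card : ℝ) := by
  have hk0 : (0 : ℝ) < k := by exact_mod_cast (by omega : 0 < k)
  have hf0 : (0 : ℝ) < ((k - 1).factorial : ℝ) := by exact_mod_cast Nat.factorial_pos _
  refine ⟨1 / (2 * k * 2 ^ (k - 1) * (k - 1).factorial), by positivity, 2 * k, ?_⟩
  intro n hn H hH hdeg
  have h1 : (H.card : ℝ) ≤
      (((univ : Finset (Fin k → Fin n)).filter (fun u => univ.image u ∈ H)).card : ℝ) := by
    exact_mod_cast me_count H hH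
  refine le_trans ?_ h1
  have h2 : (∑ v : Fin n, (deg H v : ℝ)) = H.card * k := by
    exact_mod_cast me_double H hH
  set Cn : ℝ := (((n - 1).choose (k - 1) : ℕ) : ℝ) with hCn
  have hC0 : 0 ≤ Cn := Nat.cast_nonneg _
  have h3 : (n : ℝ) * (1 / 2 * Cn) ≤ H.card * k := by
    rw [← h2]
    have h4 : ∀ v ∈ (univ : Finset (Fin n)), 1 / 2 * Cn ≤ (deg H v : ℝ) := by
      intro v _
      have := hdeg v
      nlinarith [mul_nonneg hη.le hC0]
    have h5 := Finset.card_nsmul_le_sum (univ : Finset (Fin n)) (fun v => (deg H v : ℝ))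
      (1 / 2 * Cn) h4
    rw [nsmul_eq_mul, Finset.card_univ, Fintype.card_fin] at h5
    exact h5
  have h6 : ((n : ℝ) / 2) ^ (k - 1) ≤ (k - 1).factorial * Cn := by
    have h7 : (n - 1 + 1 - (k - 1)) ^ (k - 1) ≤ (n - 1).descFactorial (k - 1) :=
      Nat.pow_sub_le_descFactorial _ _
    rw [Nat.descFactorial_eq_factorial_mul_choose] at h7
    have h8 : (((n - 1 + 1 - (k - 1)) : ℕ) : ℝ) ^ (k - 1) ≤ (k - 1).factorial * Cn := by
      rw [hCn]
      exact_mod_cast h7
    refine le_trans (pow_le_pow_left₀ (by positivity) ?_ _) h8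
    have h9 : n ≤ 2 * (n - 1 + 1 - (k - 1)) := by omega
    have h10 : (n : ℝ) ≤ 2 * ((n - 1 + 1 - (k - 1) : ℕ) : ℝ) := by exact_mod_cast h9
    linarith
  have hn0 : (0 : ℝ) ≤ n := Nat.cast_nonneg _
  have h11 : (n : ℝ) ^ k = n * n ^ (k - 1) := by
    rw [← pow_succ']
    congr 1
    omega
  have h12 : (n : ℝ) ^ (k - 1) ≤ 2 ^ (k - 1) * ((k - 1).factorial * Cn) := by
    rw [div_pow, div_le_iff₀ (by positivity)] at h6
    linarith
  rw [one_div, inv_mul_le_iff₀ (by positivity), h11]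
  have h13 : (n : ℝ) * n ^ (k - 1) ≤ n * (2 ^ (k - 1) * ((k - 1).factorial * Cn)) :=
    mul_le_mul_of_nonneg_left h12 hn0
  have h14 : (n : ℝ) * (2 ^ (k - 1) * ((k - 1).factorial * Cn)) =
      (2 * 2 ^ (k - 1) * (k - 1).factorial) * (n * (1 / 2 * Cn)) := by ring
  have h15 : (2 * 2 ^ (k - 1) * ((k - 1).factorial : ℝ)) * (n * (1 / 2 * Cn)) ≤
      (2 * 2 ^ (k - 1) * (k - 1).factorial) * (H.card * k) :=
    mul_le_mul_of_nonneg_left h3 (by positivity)
  calc (n : ℝ) * n ^ (k - 1) ≤ (2 * 2 ^ (k - 1) * (k - 1).factorial) * (H.card * k) := by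
        rw [h14] at h13
        exact h13.trans h15
    _ = _ := by ring

/-- classical filter -/
noncomputable def fl {α : Type} (s : Finset α) (p : α → Prop) : Finset α :=
  @Finset.filter α p (Classical.decPred p) s

theorem mem_fl {α : Type} {s : Finset α} {p : α → Prop} {x : α} : x ∈ fl s p ↔ x ∈ s ∧ p x := by
  let _ := Classical.decPred p
  exact Finset.mem_filter

open Classical in
theorem fl_or {α : Type} (s : Finset α) (p q : α → Prop) : fl s (fun w => p w ∨ q w) = fl s p ∪ fl s q := by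
  ext x
  rw [mem_union, mem_fl, mem_fl, mem_fl]
  tauto

theorem fl_empty {α : Type} {s : Finset α} {p : α → Prop} (h : ∀ x ∈ s, ¬ p x) : fl s p = ∅ := by
  ext x
  rw [mem_fl]
  simp only [notMem_empty, iff_false]
  intro hx
  exact h x hx.1 hx.2

open Classical in
theorem card_ex {α ι : Type} [Fintype ι] (s : Finset α) (P : ι → α → Prop) :
    ((fl s (fun w => ∃ i, P i w)).card : ℝ) ≤ ∑ i, ((fl s (P i)).card : ℝ) := by
  have h : (fl s (fun w => ∃ i, P i w)) ⊆ univ.biUnion (fun i => fl s (P i)) := by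
    intro w hw
    simp only [mem_fl, mem_biUnion, mem_univ, true_and] at hw ⊢
    obtain ⟨hw, i, hi⟩ := hw
    exact ⟨i, hw, hi⟩
  have h2 := (card_le_card h).trans card_biUnion_le
  exact_mod_cast h2

open Classical in
theorem card_or {α : Type} (s : Finset α) (P Q : α → Prop) (a b : ℝ)
    (h1 : ((fl s P).card : ℝ) ≤ a) (h2 : ((fl s Q).card : ℝ) ≤ b) :
    ((fl s (fun w => P w ∨ Q w)).card : ℝ) ≤ a + b := by
  rw [fl_or]
  have h : ((fl s P ∪ fl s Q).card : ℝ) ≤ (fl s P).card + (fl s Q).card := by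
    exact_mod_cast card_union_le _ _
  linarith

open Classical in
theorem one_coord {k : ℕ} {β : Type} (T : Finset β) (p : β → Prop) (ρ : ℝ)
    (hT : ((fl T p).card : ℝ) ≤ T.card * ρ) (i : Fin k) :
    ((fl (Fintype.piFinset (fun _ : Fin k => T)) (fun S => p (S i))).card : ℝ) ≤ (T.card : ℝ) ^ k * ρ := by
  have h : (fl (Fintype.piFinset (fun _ : Fin k => T)) (fun S => p (S i))) ⊆
      Fintype.piFinset (fun l : Fin k => if l = i then fl T p else T) := by
    intro S hS
    rw [mem_fl, Fintype.mem_piFinset] at hS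
    rw [Fintype.mem_piFinset]
    intro l
    by_cases hl : l = i
    · subst hl
      rw [if_pos rfl, mem_fl]
      exact ⟨hS.1 l, hS.2⟩
    · rw [if_neg hl]
      exact hS.1 l
  have h1 : ((fl (Fintype.piFinset (fun _ : Fin k => T)) (fun S => p (S i))).card : ℝ) ≤
      ∏ l : Fin k, (((if l = i then fl T p else T) : Finset β).card : ℝ) := by
    have := card_le_card h
    rw [Fintype.card_piFinset] at this
    exact_mod_cast this
  refine h1.trans ?_
  have h2 : ∏ l : Fin k, (((if l = i then fl T p else T) : Finset β).card : ℝ) ≤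
      ∏ l : Fin k, ((T.card : ℝ) * (if l = i then ρ else 1)) := by
    apply prod_le_prod
    · intro l _; positivity
    · intro l _
      by_cases hl : l = i
      · rw [if_pos hl, if_pos hl]; exact hT
      · rw [if_neg hl, if_neg hl, mul_one]
  refine h2.trans (le_of_eq ?_)
  rw [prod_mul_distrib, prod_const, card_univ, Fintype.card_fin, prod_ite_eq' univ i (fun _ => ρ)]
  simp

open Classical in
theorem two_coord {k : ℕ} {β : Type} (T : Finset β) (p : β → Prop) (ρ : ℝ)
    (hT : ((fl T p).card : ℝ) ≤ T.card * ρ) (i j : Fin k) (hij : i ≠ j) :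
    ((fl (Fintype.piFinset (fun _ : Fin k => T)) (fun S => p (S i) ∧ p (S j))).card : ℝ) ≤
      (T.card : ℝ) ^ k * (ρ * ρ) := by
  have h : (fl (Fintype.piFinset (fun _ : Fin k => T)) (fun S => p (S i) ∧ p (S j))) ⊆
      Fintype.piFinset (fun l : Fin k => if l = i ∨ l = j then fl T p else T) := by
    intro S hS
    rw [mem_fl, Fintype.mem_piFinset] at hS
    rw [Fintype.mem_piFinset]
    intro l
    by_cases hl : l = i ∨ l = j
    · rw [if_pos hl, mem_fl]
      refine ⟨hS.1 l, ?_⟩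
      rcases hl with rfl | rfl
      · exact hS.2.1
      · exact hS.2.2
    · rw [if_neg hl]
      exact hS.1 l
  have h1 : ((fl (Fintype.piFinset (fun _ : Fin k => T)) (fun S => p (S i) ∧ p (S j))).card : ℝ) ≤
      ∏ l : Fin k, (((if l = i ∨ l = j then fl T p else T) : Finset β).card : ℝ) := by
    have := card_le_card h
    rw [Fintype.card_piFinset] at this
    exact_mod_cast this
  refine h1.trans ?_
  have h2 : ∏ l : Fin k, (((if l = i ∨ l = j then fl T p else T) : Finset β).card : ℝ) ≤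
      ∏ l : Fin k, ((T.card : ℝ) * ((if l = i then ρ else 1) * (if l = j then ρ else 1))) := by
    apply prod_le_prod
    · intro l _; positivity
    · intro l _
      by_cases hl : l = i
      · have hlj : l ≠ j := fun h => hij (hl.symm.trans h)
        rw [if_pos (Or.inl hl), if_pos hl, if_neg hlj, mul_one]; exact hT
      · by_cases hl' : l = j
        · rw [if_pos (Or.inr hl'), if_neg hl, if_pos hl', one_mul]; exact hT
        · rw [if_neg (by tauto), if_neg hl, if_neg hl', mul_one, mul_one]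
  refine h2.trans (le_of_eq ?_)
  rw [prod_mul_distrib, prod_const, card_univ, Fintype.card_fin, prod_mul_distrib,
    prod_ite_eq' univ i (fun _ => ρ), prod_ite_eq' univ j (fun _ => ρ)]
  simp

open Classical in
/-- sets of size `k-1` through a point -/
theorem through (k : ℕ) (hk : 2 ≤ k) (n : ℕ) (hn : 1 ≤ n) (v : Fin n) :
    ((fl ((univ : Finset (Fin n)).powersetCard (k - 1)) (fun S => v ∈ S)).card : ℝ) ≤
      (((univ : Finset (Fin n)).powersetCard (k - 1)).card : ℝ) * (((k : ℝ) - 1) / n) := by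
  have h : fl ((univ : Finset (Fin n)).powersetCard (k - 1)) (fun S => v ∈ S) ⊆
      (((univ : Finset (Fin n)).erase v).powersetCard (k - 2)).image (insert v) := by
    intro S hS
    rw [mem_fl, mem_powersetCard] at hS
    rw [mem_image]
    refine ⟨S.erase v, ?_, insert_erase hS.2⟩
    rw [mem_powersetCard]
    refine ⟨erase_subset_erase _ hS.1.1, ?_⟩
    rw [card_erase_of_mem hS.2, hS.1.2]
    omega
  have h1 : ((fl ((univ : Finset (Fin n)).powersetCard (k - 1)) (fun S => v ∈ S)).card : ℝ) ≤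
      ((n - 1).choose (k - 2) : ℕ) := by
    have := (card_le_card h).trans card_image_le
    rw [card_powersetCard, card_erase_of_mem (mem_univ _), card_univ, Fintype.card_fin] at this
    exact_mod_cast this
  refine h1.trans ?_
  rw [card_powersetCard, card_univ, Fintype.card_fin]
  have hn0 : (0 : ℝ) < n := by exact_mod_cast hn
  rw [← mul_div_assoc, le_div_iff₀ hn0]
  obtain ⟨m, rfl⟩ : ∃ m, n = m + 1 := ⟨n - 1, by omega⟩
  obtain ⟨l, rfl⟩ : ∃ l, k = l + 2 := ⟨k - 2, by omega⟩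
  have e := Nat.add_one_mul_choose_eq m l
  have e' : ((m : ℝ) + 1) * ((m.choose l : ℕ) : ℝ) = (((m + 1).choose (l + 1) : ℕ) : ℝ) * ((l : ℝ) + 1) := by
    exact_mod_cast e
  have s1 : m + 1 - 1 = m := by omega
  have s2 : l + 2 - 2 = l := by omega
  have s3 : l + 2 - 1 = l + 1 := by omega
  rw [s1, s2, s3]
  push_cast at e' ⊢
  have r1 : ((l : ℝ) + 2 - 1) = l + 1 := by ring
  rw [r1, ← e']
  linarith

open Classical in
/-- few candidate gadgets have coincidences -/
theorem bad_count (k : ℕ) (hk : 2 ≤ k) (n : ℕ) (hn : 1 ≤ n) (hkn : k ≤ n) (F : Finset (Fin n)) :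
    (((Om k n).filter (fun w => (∃ i, w.1 i ∈ F) ∨ (∃ i, ¬ Disjoint (w.2 i) F) ∨
        (∃ i j, w.1 i ∈ w.2 j) ∨ (∃ i j, i ≠ j ∧ ¬ Disjoint (w.2 i) (w.2 j)))).card : ℝ) ≤
      ((k : ℝ) ^ 2 * F.card / n + 2 * (k : ℝ) ^ 4 / n) *
        ((n : ℝ) ^ k * ((n.choose (k - 1) : ℕ) : ℝ) ^ k) := by
  have hconv : ((Om k n).filter (fun w => (∃ i, w.1 i ∈ F) ∨ (∃ i, ¬ Disjoint (w.2 i) F) ∨
        (∃ i j, w.1 i ∈ w.2 j) ∨ (∃ i j, i ≠ j ∧ ¬ Disjoint (w.2 i) (w.2 j)))) =
      fl (Om k n) (fun w => (∃ i, w.1 i ∈ F) ∨ (∃ i, ¬ Disjoint (w.2 i) F) ∨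
        (∃ i j, w.1 i ∈ w.2 j) ∨ (∃ i j, i ≠ j ∧ ¬ Disjoint (w.2 i) (w.2 j))) := by
    ext x
    rw [mem_fl, mem_filter]
  rw [hconv]
  set PC : Finset (Finset (Fin n)) := (univ : Finset (Fin n)).powersetCard (k - 1) with hPC
  set P : Finset (Fin k → Finset (Fin n)) := Fintype.piFinset (fun _ : Fin k => PC) with hP
  set c : ℝ := ((n.choose (k - 1) : ℕ) : ℝ) with hc
  have hPCc : (PC.card : ℝ) = c := by
    rw [hPC, card_powersetCard, card_univ, Fintype.card_fin]
  have hn0 : (0 : ℝ) < n := by exact_mod_cast hn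
  have hc0 : 0 ≤ c := by rw [hc]; positivity
  have hk2 : (2 : ℝ) ≤ k := by exact_mod_cast hk
  set ρ : ℝ := ((k : ℝ) - 1) / n with hρ
  have hρ0 : 0 ≤ ρ := by rw [hρ]; apply div_nonneg <;> linarith
  have thr : ∀ v : Fin n, ((fl PC (fun S => v ∈ S)).card : ℝ) ≤ PC.card * ρ :=
    fun v => through k hk n hn v
  have hOm : Om k n = (univ : Finset (Fin k → Fin n)) ×ˢ P := rfl
  have hu : (univ : Finset (Fin k → Fin n)) = Fintype.piFinset (fun _ : Fin k => (univ : Finset (Fin n))) :=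
    Fintype.piFinset_univ.symm
  have hPcard : (P.card : ℝ) = c ^ k := by
    rw [hP, Fintype.card_piFinset_const]
    push_cast
    rw [hPCc]
  have hucard : ((univ : Finset (Fin k → Fin n)).card : ℝ) = (n : ℝ) ^ k := by
    rw [card_univ, Fintype.card_fun, Fintype.card_fin, Fintype.card_fin]
    push_cast
    rfl
  have F0 : (0 : ℝ) ≤ F.card := by positivity
  -- first event
  have E1 : ((fl (Om k n) (fun w => ∃ i, w.1 i ∈ F)).card : ℝ) ≤ k * ((n : ℝ) ^ k * (F.card / n) * c ^ k) := by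
    refine (card_ex _ (fun (i : Fin k) (w : (Fin k → Fin n) × (Fin k → Finset (Fin n))) => w.1 i ∈ F)).trans ?_
    have hi : ∀ i : Fin k, ((fl (Om k n) (fun w => w.1 i ∈ F)).card : ℝ) ≤ (n : ℝ) ^ k * (F.card / n) * c ^ k := by
      intro i
      have s : fl (Om k n) (fun w => w.1 i ∈ F) ⊆
          (fl (Fintype.piFinset (fun _ : Fin k => (univ : Finset (Fin n)))) (fun u => u i ∈ F)) ×ˢ P := by
        intro w hw
        rw [mem_fl, hOm, mem_product] at hw
        rw [mem_product, mem_fl, ← hu]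
        exact ⟨⟨mem_univ _, hw.2⟩, hw.1.2⟩
      have s1 : ((fl (Om k n) (fun w => w.1 i ∈ F)).card : ℝ) ≤
          ((fl (Fintype.piFinset (fun _ : Fin k => (univ : Finset (Fin n)))) (fun u => u i ∈ F)).card : ℝ) * (P.card : ℝ) := by
        have := card_le_card s
        rw [card_product] at this
        exact_mod_cast this
      refine s1.trans ?_
      rw [hPcard]
      apply mul_le_mul_of_nonneg_right _ (by positivity)
      have := one_coord (univ : Finset (Fin n)) (fun x => x ∈ F) ((F.card : ℝ) / n) (by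
        rw [card_univ, Fintype.card_fin, mul_div_cancel₀ _ hn0.ne']
        have : fl (univ : Finset (Fin n)) (fun x => x ∈ F) = F := by ext; rw [mem_fl]; simp
        rw [this]) i
      rwa [card_univ, Fintype.card_fin] at this
    refine (sum_le_sum (fun i _ => hi i)).trans (le_of_eq ?_)
    rw [sum_const, card_univ, Fintype.card_fin, nsmul_eq_mul]
  have one : ∀ (v : Fin n) (i : Fin k), ((fl P (fun S => v ∈ S i)).card : ℝ) ≤ c ^ k * ρ := by
    intro v i
    have := one_coord PC (fun S => v ∈ S) ρ (thr v) i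
    rwa [hPCc] at this
  have two : ∀ (v : Fin n) (i j : Fin k), i ≠ j → ((fl P (fun S => v ∈ S i ∧ v ∈ S j)).card : ℝ) ≤ c ^ k * (ρ * ρ) := by
    intro v i j hij
    have := two_coord PC (fun S => v ∈ S) ρ (thr v) i j hij
    rwa [hPCc] at this
  -- second event
  have E2 : ((fl (Om k n) (fun w => ∃ i, ¬ Disjoint (w.2 i) F)).card : ℝ) ≤ k * ((n : ℝ) ^ k * (F.card * (c ^ k * ρ))) := by
    refine (card_ex _ (fun (i : Fin k) (w : (Fin k → Fin n) × (Fin k → Finset (Fin n))) => ¬ Disjoint (w.2 i) F)).trans ?_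
    have hi : ∀ i : Fin k, ((fl (Om k n) (fun w => ¬ Disjoint (w.2 i) F)).card : ℝ) ≤
        (n : ℝ) ^ k * (F.card * (c ^ k * ρ)) := by
      intro i
      have s : fl (Om k n) (fun w => ¬ Disjoint (w.2 i) F) ⊆
          (univ : Finset (Fin k → Fin n)) ×ˢ (F.biUnion (fun v => fl P (fun S => v ∈ S i))) := by
        intro w hw
        rw [mem_fl, hOm, mem_product, not_disjoint_iff] at hw
        obtain ⟨⟨_, h2⟩, v, hv1, hv2⟩ := hw
        rw [mem_product, mem_biUnion]
        exact ⟨mem_univ _, v, hv2, mem_fl.2 ⟨h2, hv1⟩⟩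
      have s1 : ((fl (Om k n) (fun w => ¬ Disjoint (w.2 i) F)).card : ℝ) ≤
          ((univ : Finset (Fin k → Fin n)).card : ℝ) * ∑ v ∈ F, ((fl P (fun S => v ∈ S i)).card : ℝ) := by
        have h1 := card_le_card s
        rw [card_product] at h1
        have h2 := h1.trans (Nat.mul_le_mul_left _ card_biUnion_le)
        exact_mod_cast h2
      refine s1.trans ?_
      rw [hucard]
      apply mul_le_mul_of_nonneg_left _ (by positivity)
      refine (sum_le_sum (fun v _ => one v i)).trans (le_of_eq ?_)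
      rw [sum_const, nsmul_eq_mul]
    refine (sum_le_sum (fun i _ => hi i)).trans (le_of_eq ?_)
    rw [sum_const, card_univ, Fintype.card_fin, nsmul_eq_mul]
  -- third event
  have E3 : ((fl (Om k n) (fun w => ∃ i j, w.1 i ∈ w.2 j)).card : ℝ) ≤ k * (k * ((n : ℝ) ^ k * (c ^ k * ρ))) := by
    refine (card_ex _ (fun (i : Fin k) (w : (Fin k → Fin n) × (Fin k → Finset (Fin n))) => ∃ j, w.1 i ∈ w.2 j)).trans ?_
    have hi : ∀ i j : Fin k, ((fl (Om k n) (fun w => w.1 i ∈ w.2 j)).card : ℝ) ≤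
        (n : ℝ) ^ k * (c ^ k * ρ) := by
      intro i j
      have s : fl (Om k n) (fun w => w.1 i ∈ w.2 j) ⊆
          univ.biUnion (fun v : Fin n =>
            (fl (Fintype.piFinset (fun _ : Fin k => (univ : Finset (Fin n)))) (fun u => u i = v)) ×ˢ
            (fl P (fun S => v ∈ S j))) := by
        intro w hw
        rw [mem_fl, hOm, mem_product] at hw
        rw [mem_biUnion]
        refine ⟨w.1 i, mem_univ _, ?_⟩
        rw [mem_product, mem_fl, mem_fl, ← hu]
        exact ⟨⟨mem_univ _, rfl⟩, hw.1.2, hw.2⟩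
      have o : ∀ v : Fin n, (((fl (Fintype.piFinset (fun _ : Fin k => (univ : Finset (Fin n)))) (fun u => u i = v)).card : ℝ)) ≤
          (n : ℝ) ^ k * (1 / n) := by
        intro v
        have := one_coord (univ : Finset (Fin n)) (fun x => x = v) ((1 : ℝ) / n) (by
          rw [card_univ, Fintype.card_fin, mul_div_cancel₀ _ hn0.ne']
          have : fl (univ : Finset (Fin n)) (fun x => x = v) = {v} := by ext; rw [mem_fl]; simp
          rw [this]
          simp) i
        rwa [card_univ, Fintype.card_fin] at this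
      have s1 : ((fl (Om k n) (fun w => w.1 i ∈ w.2 j)).card : ℝ) ≤
          ∑ v : Fin n, (((fl (Fintype.piFinset (fun _ : Fin k => (univ : Finset (Fin n)))) (fun u => u i = v)).card : ℝ) *
            ((fl P (fun S => v ∈ S j)).card : ℝ)) := by
        have h1 := (card_le_card s).trans card_biUnion_le
        simp only [card_product] at h1
        exact_mod_cast h1
      refine s1.trans ?_
      refine (sum_le_sum (fun v _ => mul_le_mul (o v) (one v j) (by positivity) (by positivity))).trans (le_of_eq ?_)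
      rw [sum_const, card_univ, Fintype.card_fin, nsmul_eq_mul]
      field_simp
    have hj : ∀ i : Fin k, ((fl (Om k n) (fun w => ∃ j, w.1 i ∈ w.2 j)).card : ℝ) ≤
        k * ((n : ℝ) ^ k * (c ^ k * ρ)) := by
      intro i
      refine (card_ex _ (fun (j : Fin k) (w : (Fin k → Fin n) × (Fin k → Finset (Fin n))) => w.1 i ∈ w.2 j)).trans ?_
      refine (sum_le_sum (fun j _ => hi i j)).trans (le_of_eq ?_)
      rw [sum_const, card_univ, Fintype.card_fin, nsmul_eq_mul]
    refine (sum_le_sum (fun i _ => hj i)).trans (le_of_eq ?_)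
    rw [sum_const, card_univ, Fintype.card_fin, nsmul_eq_mul]
  -- fourth event
  have E4 : ((fl (Om k n) (fun w => ∃ i j, i ≠ j ∧ ¬ Disjoint (w.2 i) (w.2 j))).card : ℝ) ≤
      k * (k * ((n : ℝ) ^ k * (n * (c ^ k * (ρ * ρ))))) := by
    refine (card_ex _ (fun (i : Fin k) (w : (Fin k → Fin n) × (Fin k → Finset (Fin n))) => ∃ j, i ≠ j ∧ ¬ Disjoint (w.2 i) (w.2 j))).trans ?_
    have hi : ∀ i j : Fin k, ((fl (Om k n) (fun w => i ≠ j ∧ ¬ Disjoint (w.2 i) (w.2 j))).card : ℝ) ≤
        (n : ℝ) ^ k * (n * (c ^ k * (ρ * ρ))) := by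
      intro i j
      by_cases hij : i = j
      · have : fl (Om k n) (fun w => i ≠ j ∧ ¬ Disjoint (w.2 i) (w.2 j)) = ∅ := by
          apply fl_empty
          intro w _ h
          exact h.1 hij
        rw [this]
        simp only [card_empty, Nat.cast_zero]
        positivity
      have s : fl (Om k n) (fun w => i ≠ j ∧ ¬ Disjoint (w.2 i) (w.2 j)) ⊆
          (univ : Finset (Fin k → Fin n)) ×ˢ (univ.biUnion (fun v : Fin n => fl P (fun S => v ∈ S i ∧ v ∈ S j))) := by
        intro w hw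
        rw [mem_fl, hOm, mem_product, not_disjoint_iff] at hw
        obtain ⟨⟨_, h2⟩, _, v, hv1, hv2⟩ := hw
        rw [mem_product, mem_biUnion]
        exact ⟨mem_univ _, v, mem_univ _, mem_fl.2 ⟨h2, hv1, hv2⟩⟩
      have s1 : ((fl (Om k n) (fun w => i ≠ j ∧ ¬ Disjoint (w.2 i) (w.2 j))).card : ℝ) ≤
          ((univ : Finset (Fin k → Fin n)).card : ℝ) * ∑ v : Fin n, ((fl P (fun S => v ∈ S i ∧ v ∈ S j)).card : ℝ) := by
        have h1 := card_le_card s
        rw [card_product] at h1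
        have h2 := h1.trans (Nat.mul_le_mul_left _ card_biUnion_le)
        exact_mod_cast h2
      refine s1.trans ?_
      rw [hucard]
      apply mul_le_mul_of_nonneg_left _ (by positivity)
      refine (sum_le_sum (fun v _ => two v i j hij)).trans (le_of_eq ?_)
      rw [sum_const, card_univ, Fintype.card_fin, nsmul_eq_mul]
    have hj : ∀ i : Fin k, ((fl (Om k n) (fun w => ∃ j, i ≠ j ∧ ¬ Disjoint (w.2 i) (w.2 j))).card : ℝ) ≤
        k * ((n : ℝ) ^ k * (n * (c ^ k * (ρ * ρ)))) := by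
      intro i
      refine (card_ex _ (fun (j : Fin k) (w : (Fin k → Fin n) × (Fin k → Finset (Fin n))) => i ≠ j ∧ ¬ Disjoint (w.2 i) (w.2 j))).trans ?_
      refine (sum_le_sum (fun j _ => hi i j)).trans (le_of_eq ?_)
      rw [sum_const, card_univ, Fintype.card_fin, nsmul_eq_mul]
    refine (sum_le_sum (fun i _ => hj i)).trans (le_of_eq ?_)
    rw [sum_const, card_univ, Fintype.card_fin, nsmul_eq_mul]
  have tot := card_or (Om k n) _ _ _ _ E1 (card_or (Om k n) _ _ _ _ E2 (card_or (Om k n) _ _ _ _ E3 E4))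
  refine tot.trans ?_
  have key : k * ((n : ℝ) ^ k * (F.card / n) * c ^ k) + (k * ((n : ℝ) ^ k * (F.card * (c ^ k * ρ))) +
      (k * (k * ((n : ℝ) ^ k * (c ^ k * ρ))) + k * (k * ((n : ℝ) ^ k * (n * (c ^ k * (ρ * ρ))))))) =
      ((k : ℝ) ^ 2 * F.card / n + (k : ℝ) ^ 3 * (k - 1) / n) * ((n : ℝ) ^ k * c ^ k) := by
    rw [hρ]
    field_simp
    ring
  rw [key]
  apply mul_le_mul_of_nonneg_right _ (by positivity)
  have : (k : ℝ) ^ 3 * (k - 1) / n ≤ 2 * (k : ℝ) ^ 4 / n := by
    apply div_le_div_of_nonneg_right _ hn0.le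
    have : (0 : ℝ) ≤ (k : ℝ) ^ 3 := by positivity
    nlinarith [mul_nonneg this (by linarith : (0 : ℝ) ≤ k)]
  linarith

theorem good_gadgets_cardOm (k n : ℕ) : ((Om k n).card : ℝ) =
    (n : ℝ) ^ k * ((n.choose (k - 1) : ℕ) : ℝ) ^ k := by
  unfold Om
  rw [Finset.card_product, Fintype.card_piFinset]
  simp only [Finset.card_univ, Fintype.card_fun, Fintype.card_fin, Finset.card_powersetCard,
    Finset.prod_const]
  push_cast
  ring

theorem good_gadgets_lower (k : ℕ) (n : ℕ) (η c1 : ℝ) (hη : 0 < η) (hc1 : 0 < c1)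
    (H : Finset (Finset (Fin n))) (x : Fin k → Fin n)
    (h1 : c1 * (n : ℝ) ^ k ≤
        (((univ : Finset (Fin k → Fin n)).filter (fun u => univ.image u ∈ H)).card : ℝ))
    (h2 : ∀ a b : Fin n, η * ((n.choose (k - 1) : ℕ) : ℝ) ≤
        ((((univ : Finset (Fin n)).powersetCard (k - 1)).filter
          (fun S => insert a S ∈ H ∧ insert b S ∈ H)).card : ℝ)) :
    c1 * η ^ k * ((Om k n).card : ℝ) ≤
      (((Om k n).filter (fun w => univ.image w.1 ∈ H ∧
        ∀ i, insert (w.1 i) (w.2 i) ∈ H ∧ insert (x i) (w.2 i) ∈ H)).card : ℝ) := by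
  classical
  set A := (Om k n).filter (fun w => univ.image w.1 ∈ H ∧
        ∀ i, insert (w.1 i) (w.2 i) ∈ H ∧ insert (x i) (w.2 i) ∈ H) with hA
  set U := (univ : Finset (Fin k → Fin n)).filter (fun u => univ.image u ∈ H) with hU
  have hmaps : Set.MapsTo (fun w : (Fin k → Fin n) × (Fin k → Finset (Fin n)) => w.1) A U := by
    intro w hw
    have hw' : w ∈ A := hw
    rw [hA, Finset.mem_filter] at hw'
    show w.1 ∈ (U : Set _)
    rw [Finset.mem_coe, hU, Finset.mem_filter]
    exact ⟨Finset.mem_univ _, hw'.2.1⟩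
  rw [Finset.card_eq_sum_card_fiberwise hmaps]
  push_cast
  have key : ∀ u ∈ U, (η * ((n.choose (k - 1) : ℕ) : ℝ)) ^ k ≤
      ((A.filter (fun w => w.1 = u)).card : ℝ) := by
    intro u hu
    have hu' : univ.image u ∈ H := by
      rw [hU, Finset.mem_filter] at hu
      exact hu.2
    have hcard : (Fintype.piFinset (fun i : Fin k => ((univ : Finset (Fin n)).powersetCard (k - 1)).filter
          (fun S => insert (u i) S ∈ H ∧ insert (x i) S ∈ H))).card ≤
          (A.filter (fun w => w.1 = u)).card := by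
      apply Finset.card_le_card_of_injOn (fun S => (u, S))
      · intro S hS
        have hS' := Finset.mem_coe.mp hS
        rw [Fintype.mem_piFinset] at hS'
        rw [Finset.mem_coe, Finset.mem_filter, hA, Finset.mem_filter]
        refine ⟨⟨?_, hu', fun i => ?_⟩, rfl⟩
        · unfold Om
          rw [Finset.mem_product]
          refine ⟨Finset.mem_univ _, ?_⟩
          rw [Fintype.mem_piFinset]
          intro i
          exact (Finset.mem_filter.mp (hS' i)).1
        · exact (Finset.mem_filter.mp (hS' i)).2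
      · intro S _ S' _ h
        exact (Prod.mk.inj h).2
    have hc2 : ((Fintype.piFinset (fun i : Fin k => ((univ : Finset (Fin n)).powersetCard (k - 1)).filter
          (fun S => insert (u i) S ∈ H ∧ insert (x i) S ∈ H))).card : ℝ) =
          ∏ i : Fin k, ((((univ : Finset (Fin n)).powersetCard (k - 1)).filter
          (fun S => insert (u i) S ∈ H ∧ insert (x i) S ∈ H)).card : ℝ) := by
      rw [Fintype.card_piFinset]
      push_cast
      rfl
    calc (η * ((n.choose (k - 1) : ℕ) : ℝ)) ^ k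
        = ∏ _i : Fin k, (η * ((n.choose (k - 1) : ℕ) : ℝ)) := by
          rw [Finset.prod_const, Finset.card_univ, Fintype.card_fin]
      _ ≤ ∏ i : Fin k, ((((univ : Finset (Fin n)).powersetCard (k - 1)).filter
          (fun S => insert (u i) S ∈ H ∧ insert (x i) S ∈ H)).card : ℝ) :=
          Finset.prod_le_prod (fun i _ => by positivity) (fun i _ => h2 (u i) (x i))
      _ = _ := hc2.symm
      _ ≤ _ := by exact_mod_cast hcard
  calc c1 * η ^ k * ((Om k n).card : ℝ)
      = (c1 * (n : ℝ) ^ k) * (η * ((n.choose (k - 1) : ℕ) : ℝ)) ^ k := by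
        rw [good_gadgets_cardOm, mul_pow]; ring
    _ ≤ (U.card : ℝ) * (η * ((n.choose (k - 1) : ℕ) : ℝ)) ^ k :=
        mul_le_mul_of_nonneg_right h1 (by positivity)
    _ = ∑ _u ∈ U, (η * ((n.choose (k - 1) : ℕ) : ℝ)) ^ k := by
        rw [Finset.sum_const, nsmul_eq_mul]
    _ ≤ ∑ u ∈ U, ((A.filter (fun w => w.1 = u)).card : ℝ) := Finset.sum_le_sum key

open Classical in
theorem good_gadgets (k : ℕ) (hk : 2 ≤ k) (η : ℝ) (hη : 0 < η) :
    ∃ c : ℝ, 0 < c ∧ c ≤ 1 ∧ ∃ β : ℝ, 0 < β ∧ ∃ n0 : ℕ, ∀ n : ℕ, n0 ≤ n →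
      ∀ H : Finset (Finset (Fin n)), (∀ e ∈ H, e.card = k) →
      (∀ v, (1 / 2 + η) * ((n - 1).choose (k - 1) : ℕ) ≤ (deg H v : ℝ)) →
      ∀ F : Finset (Fin n), (F.card : ℝ) ≤ β * n → ∀ x : Fin k → Fin n,
      c * ((Om k n).card : ℝ) ≤
        (((Om k n).filter (fun w => GV H w.1 w.2 ∧ Disjoint (gv w.1 w.2) F ∧
          ∀ i, insert (x i) (w.2 i) ∈ H)).card : ℝ) := by
  obtain ⟨n2, hn2⟩ := common_link k hk η hη
  obtain ⟨c1, hc1, n1, hn1⟩ := many_edges k hk η hη
  have hkpos : (0:ℝ) < (k:ℝ) := by exact_mod_cast (by omega : 0 < k)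
  have hδ : 0 < c1 * η ^ k := by positivity
  obtain ⟨n3, hn3⟩ := exists_nat_ge (8 * (k:ℝ)^4 / (c1 * η ^ k))
  refine ⟨min 1 (c1 * η ^ k / 4), lt_min one_pos (by positivity), min_le_left _ _,
    c1 * η ^ k / (4 * (k:ℝ)^2), by positivity, n1 + n2 + n3 + k + 1, ?_⟩
  intro n hn H hH hdeg F hF x
  have hnpos : (0:ℝ) < (n:ℝ) := by exact_mod_cast (by omega : 0 < n)
  have hlow := good_gadgets_lower k n η c1 hη hc1 H x (hn1 n (by omega) H hH hdeg)
    (hn2 n (by omega) H hH hdeg)
  have hbad := bad_count k hk n (by omega) (by omega) F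
  rw [← good_gadgets_cardOm] at hbad
  set A := (Om k n).filter (fun w => univ.image w.1 ∈ H ∧
        ∀ i, insert (w.1 i) (w.2 i) ∈ H ∧ insert (x i) (w.2 i) ∈ H) with hA
  set Bd := (Om k n).filter (fun w => (∃ i, w.1 i ∈ F) ∨ (∃ i, ¬ Disjoint (w.2 i) F) ∨
        (∃ i j, w.1 i ∈ w.2 j) ∨ (∃ i j, i ≠ j ∧ ¬ Disjoint (w.2 i) (w.2 j))) with hBd
  set Gd := (Om k n).filter (fun w => GV H w.1 w.2 ∧ Disjoint (gv w.1 w.2) F ∧
          ∀ i, insert (x i) (w.2 i) ∈ H) with hGd
  have hsub : A ⊆ Bd ∪ Gd := by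
    intro w hw
    rw [hA, Finset.mem_filter] at hw
    obtain ⟨hwO, hwH, hwi⟩ := hw
    rw [Finset.mem_union]
    by_cases hb : w ∈ Bd
    · exact Or.inl hb
    · right
      rw [hBd, Finset.mem_filter] at hb
      have hb' : ¬ ((∃ i, w.1 i ∈ F) ∨ (∃ i, ¬ Disjoint (w.2 i) F) ∨
        (∃ i j, w.1 i ∈ w.2 j) ∨ (∃ i j, i ≠ j ∧ ¬ Disjoint (w.2 i) (w.2 j))) :=
        fun h => hb ⟨hwO, h⟩
      push Not at hb'
      obtain ⟨b1, b2, b3, b4⟩ := hb'
      rw [hGd, Finset.mem_filter]
      refine ⟨hwO, ?_, ?_, fun i => (hwi i).2⟩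
      · refine ⟨?_, hwH, fun i => (hwi i).1, b3, b4⟩
        have hc := hH _ hwH
        have hc' : (univ.image w.1).card = (univ : Finset (Fin k)).card := by
          rw [hc, Finset.card_univ, Fintype.card_fin]
        have := Finset.card_image_iff.mp hc'
        intro a b hab
        exact this (Finset.mem_coe.mpr (Finset.mem_univ a)) (Finset.mem_coe.mpr (Finset.mem_univ b)) hab
      · unfold gv
        rw [Finset.disjoint_union_left]
        constructor
        · rw [Finset.disjoint_left]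
          intro a ha
          rw [Finset.mem_image] at ha
          obtain ⟨i, _, rfl⟩ := ha
          exact b1 i
        · rw [Finset.disjoint_biUnion_left]
          intro i _
          exact b2 i
  have hcard : (A.card : ℝ) ≤ (Bd.card : ℝ) + (Gd.card : ℝ) := by
    have h := (Finset.card_le_card hsub).trans (Finset.card_union_le _ _)
    exact_mod_cast h
  have hD : (0:ℝ) ≤ ((Om k n).card : ℝ) := by positivity
  have e1 : (k : ℝ) ^ 2 * F.card / n ≤ c1 * η ^ k / 4 := by
    rw [div_le_iff₀ hnpos]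
    have h := mul_le_mul_of_nonneg_left hF (by positivity : (0:ℝ) ≤ (k:ℝ)^2)
    calc (k : ℝ) ^ 2 * F.card ≤ (k:ℝ)^2 * (c1 * η ^ k / (4 * (k:ℝ)^2) * n) := h
      _ = c1 * η ^ k / 4 * n := by field_simp
  have e2 : 2 * (k : ℝ) ^ 4 / n ≤ c1 * η ^ k / 4 := by
    have hnn : (n3:ℝ) ≤ (n:ℝ) := by exact_mod_cast (by omega : n3 ≤ n)
    have h := hn3.trans hnn
    rw [div_le_iff₀ hδ] at h
    rw [div_le_iff₀ hnpos]
    linarith
  have e3 : ((k : ℝ) ^ 2 * F.card / n + 2 * (k : ℝ) ^ 4 / n) * ((Om k n).card : ℝ)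
      ≤ (c1 * η ^ k / 2) * ((Om k n).card : ℝ) :=
    mul_le_mul_of_nonneg_right (by linarith) hD
  have e4 : min 1 (c1 * η ^ k / 4) * ((Om k n).card : ℝ) ≤ (c1 * η ^ k / 4) * ((Om k n).card : ℝ) :=
    mul_le_mul_of_nonneg_right (min_le_right _ _) hD
  have e5 : 0 ≤ (c1 * η ^ k / 4) * ((Om k n).card : ℝ) := by positivity
  linarith

end Pool.Agent.FracEM.PMT
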