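import Mathlib
import Pool.Agent.FracEM.PM.Abs1
import Pool.Agent.FracEM.PM.Cnt

set_option autoImplicit false

namespace Pool.Agent.FracEM.PMT

open Finset

open Classical in
/-- prove this one (all of the above may be used without proof) -/
theorem step (k : ℕ) (hk : 2 ≤ k) (η : ℝ) (hη : 0 < η) :
    ∃ c : ℝ, 0 < c ∧ c ≤ 1 ∧ ∃ β : ℝ, 0 < β ∧ ∃ n0 : ℕ, ∀ n : ℕ, n0 ≤ n →
      ∀ H : Finset (Finset (Fin n)), (∀ e ∈ H, e.card = k) →
      (∀ v, (1 / 2 + η) * ((n - 1).choose (k - 1) : ℕ) ≤ (deg H v : ℝ)) →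
      ∀ F' : Finset (Fin n), (F'.card : ℝ) ≤ β * n → ∀ Y : Finset (Fin k → Fin n),
      (∀ x ∈ Y, Function.Injective x) → Y.Nonempty →
      ∃ W : Finset (Fin n), Disjoint W F' ∧ W.card ≤ k * k ∧ PMon H W ∧
        c * (Y.card : ℝ) ≤ ((Y.filter (fun x => Disjoint (univ.image x) W →
          PMon H (W ∪ univ.image x))).card : ℝ) := by
  obtain ⟨c, hc0, hc1, β, hβ, n0, hmain⟩ := good_gadgets k hk η hη
  refine ⟨c, hc0, hc1, β, hβ, max n0 k, ?_⟩
  intro n hn H hH hdeg F' hF' Y hY hYne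
  have hn0 : n0 ≤ n := le_trans (le_max_left _ _) hn
  have hnk : k ≤ n := le_trans (le_max_right _ _) hn
  have hx := hmain n hn0 H hH hdeg F' hF'
  have hOm : (Om k n).Nonempty := by
    unfold Om
    refine Finset.Nonempty.product ?_ ?_
    · haveI : Nonempty (Fin n) := ⟨⟨0, by omega⟩⟩
      exact Finset.univ_nonempty
    · rw [Fintype.piFinset_nonempty]
      intro _
      rw [Finset.powersetCard_nonempty]
      rw [Finset.card_univ, Fintype.card_fin]
      omega
  have hYpos : (0 : ℝ) < (Y.card : ℝ) := by exact_mod_cast hYne.card_pos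
  set P : (Fin k → Fin n) → ((Fin k → Fin n) × (Fin k → Finset (Fin n))) → Prop := fun x w =>
    GV H w.1 w.2 ∧ Disjoint (gv w.1 w.2) F' ∧ ∀ i, insert (x i) (w.2 i) ∈ H with hP
  have hsum : (Y.card : ℝ) * (c * ((Om k n).card : ℝ)) ≤
      ∑ w ∈ Om k n, ((Y.filter (fun x => P x w)).card : ℝ) := by
    have h1 : ∑ x ∈ Y, (((Om k n).filter (fun w => P x w)).card : ℝ) =
        ∑ w ∈ Om k n, ((Y.filter (fun x => P x w)).card : ℝ) := by
      have h2 := Finset.sum_card_bipartiteAbove_eq_sum_card_bipartiteBelow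
        (s := Y) (t := Om k n) P
      unfold Finset.bipartiteAbove Finset.bipartiteBelow at h2
      exact_mod_cast h2
    rw [← h1, ← nsmul_eq_mul]
    exact Finset.card_nsmul_le_sum Y _ _ (fun x _ => hx x)
  have hex : ∃ w ∈ Om k n, c * (Y.card : ℝ) ≤ ((Y.filter (fun x => P x w)).card : ℝ) := by
    by_contra hcon
    push Not at hcon
    have h3 : ∑ w ∈ Om k n, ((Y.filter (fun x => P x w)).card : ℝ) <
        ∑ w ∈ Om k n, c * (Y.card : ℝ) := Finset.sum_lt_sum_of_nonempty hOm hcon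
    rw [Finset.sum_const, nsmul_eq_mul] at h3
    have h4 : (Y.card : ℝ) * (c * ((Om k n).card : ℝ)) = ((Om k n).card : ℝ) * (c * Y.card) := by
      ring
    linarith
  obtain ⟨w, hw, hwc⟩ := hex
  have hpos : (0 : ℝ) < ((Y.filter (fun x => P x w)).card : ℝ) :=
    lt_of_lt_of_le (mul_pos hc0 hYpos) hwc
  have hne : (Y.filter (fun x => P x w)).Nonempty := by
    rw [← Finset.card_pos]
    exact_mod_cast hpos
  obtain ⟨x1, hx1⟩ := hne
  obtain ⟨hGV, hdis, -⟩ := (Finset.mem_filter.1 hx1).2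
  refine ⟨gv w.1 w.2, hdis, gv_card H hH _ _ hGV, gv_pm H _ _ hGV, ?_⟩
  refine hwc.trans ?_
  have hsub : Y.filter (fun x => P x w) ⊆ Y.filter (fun x => Disjoint (univ.image x) (gv w.1 w.2) →
      PMon H (gv w.1 w.2 ∪ univ.image x)) := by
    intro x hx
    obtain ⟨hxY, -, -, h5⟩ := Finset.mem_filter.1 hx
    exact Finset.mem_filter.2 ⟨hxY, fun h6 => gv_abs H _ _ hGV x (hY x hxY) h6 h5⟩
  exact_mod_cast Finset.card_le_card hsub

theorem one_abs_evt (k : ℕ) (c a : ℝ) (hc0 : 0 < c) (hc1 : c ≤ 1) (ha : 0 < a) :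
    ∃ n0 : ℕ, ∀ n : ℕ, n0 ≤ n → (1 - c) ^ ⌊a * n⌋₊ * (n : ℝ) ^ k < 1 := by
  have h1 : Filter.Tendsto (fun n : ℕ => (c * a * (n : ℝ)) ^ k * Real.exp (-(c * a * (n : ℝ)))) Filter.atTop (nhds 0) := by
    have h2 : Filter.Tendsto (fun n : ℕ => c * a * (n : ℝ)) Filter.atTop Filter.atTop :=
      Filter.Tendsto.const_mul_atTop (by positivity) tendsto_natCast_atTop_atTop
    exact (Real.tendsto_pow_mul_exp_neg_atTop_nhds_zero k).comp h2
  have hpos : 0 < (c * a) ^ k * Real.exp (-c) := by positivity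
  obtain ⟨n0, hn0⟩ := Filter.eventually_atTop.1 (h1.eventually (gt_mem_nhds hpos))
  refine ⟨n0, fun n hn => ?_⟩
  have h2 := hn0 n hn
  set t := ⌊a * n⌋₊ with ht
  have h3 : a * n < t + 1 := Nat.lt_floor_add_one _
  have h4 : (1 - c) ^ t ≤ Real.exp (-(c * t)) := by
    have h5 : 1 - c ≤ Real.exp (-c) := Real.one_sub_le_exp_neg c
    calc (1 - c) ^ t ≤ (Real.exp (-c)) ^ t := pow_le_pow_left₀ (by linarith) h5 t
      _ = Real.exp (-(c * t)) := by
        rw [← Real.exp_nat_mul]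
        congr 1
        ring
  have h6 : Real.exp (-(c * t)) ≤ Real.exp c * Real.exp (-(c * a * n)) := by
    rw [← Real.exp_add]
    apply Real.exp_le_exp.2
    nlinarith
  have h7 : (0 : ℝ) ≤ (n : ℝ) ^ k := by positivity
  calc (1 - c) ^ t * (n : ℝ) ^ k ≤ Real.exp c * Real.exp (-(c * a * n)) * (n : ℝ) ^ k :=
        mul_le_mul_of_nonneg_right (h4.trans h6) h7
    _ = Real.exp c / (c * a) ^ k * ((c * a * (n : ℝ)) ^ k * Real.exp (-(c * a * (n : ℝ)))) := by
        rw [mul_pow (c * a) (n : ℝ) k]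
        generalize hX : (c * a) ^ k = X
        have hX0 : X ≠ 0 := by
          rw [← hX]
          positivity
        field_simp
    _ < Real.exp c / (c * a) ^ k * ((c * a) ^ k * Real.exp (-c)) := mul_lt_mul_of_pos_left h2 (by positivity)
    _ = 1 := by
        have : (c * a) ^ k ≠ 0 := by positivity
        field_simp
        rw [← Real.exp_add]
        simp

/-- prove this one (`greedy` and `step` above may be used without proof) -/
theorem one_abs (k : ℕ) (hk : 2 ≤ k) (η : ℝ) (hη : 0 < η) :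
    ∃ β : ℝ, 0 < β ∧ ∀ θ : ℝ, 0 < θ → ∃ n0 : ℕ, ∀ n : ℕ, n0 ≤ n →
      ∀ H : Finset (Finset (Fin n)), (∀ e ∈ H, e.card = k) →
      (∀ v, (1 / 2 + η) * ((n - 1).choose (k - 1) : ℕ) ≤ (deg H v : ℝ)) →
      ∀ F : Finset (Fin n), (F.card : ℝ) ≤ β * n →
      ∃ Z : Finset (Fin n), Disjoint Z F ∧ (Z.card : ℝ) ≤ θ * n ∧ AbsSet H k Z := by
  classical
  obtain ⟨c, hc0, hc1, β', hβ', n0', hst⟩ := step k hk η hη
  refine ⟨β' / 2, by positivity, fun θ hθ => ?_⟩
  have hθ' : 0 < min θ (β' / 2) := lt_min hθ (by positivity)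
  have hk0 : (0 : ℝ) < (k : ℝ) * k := by
    have : 0 < (k : ℝ) := by
      have : 0 < k := by omega
      exact_mod_cast this
    positivity
  set a := min θ (β' / 2) / ((k : ℝ) * k) with ha
  have ha0 : 0 < a := by positivity
  obtain ⟨n1, hn1⟩ := one_abs_evt k c a hc0 hc1 ha0
  refine ⟨max n0' n1, fun n hn H hH hdeg F hF => ?_⟩
  have hn' : n0' ≤ n := (le_max_left _ _).trans hn
  have hn'' : n1 ≤ n := (le_max_right _ _).trans hn
  set t := ⌊a * n⌋₊ with ht
  have ht1 : (t : ℝ) ≤ a * n := Nat.floor_le (by positivity)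
  have ht2 : (t : ℝ) * ((k * k : ℕ) : ℝ) ≤ min θ (β' / 2) * n := by
    push_cast
    calc (t : ℝ) * ((k : ℝ) * k) ≤ (a * n) * ((k : ℝ) * k) := mul_le_mul_of_nonneg_right ht1 hk0.le
      _ = min θ (β' / 2) * n := by
        rw [ha]
        field_simp
  have hn0 : (0 : ℝ) ≤ n := Nat.cast_nonneg n
  have hm1 : min θ (β' / 2) * n ≤ θ * n := mul_le_mul_of_nonneg_right (min_le_left _ _) hn0
  have hm2 : min θ (β' / 2) * n ≤ β' / 2 * n := mul_le_mul_of_nonneg_right (min_le_right _ _) hn0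
  have hX : (((univ : Finset (Fin k → Fin n)).filter Function.Injective).card : ℝ) ≤ (n : ℝ) ^ k := by
    have h1 : ((univ : Finset (Fin k → Fin n)).filter Function.Injective).card ≤ n ^ k := by
      refine (Finset.card_filter_le _ _).trans ?_
      simp
    exact_mod_cast h1
  obtain ⟨Z, hZ1, hZ2, hZ3, hZ4⟩ := greedy H ((univ : Finset (Fin k → Fin n)).filter Function.Injective)
    (β' * n) c (k * k) hc0 hc1 (by
      intro F' hF' Y hY hYne
      exact hst n hn' H hH hdeg F' hF' Y (fun x hx => (Finset.mem_filter.1 (hY hx)).2) hYne) F t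
    (by linarith) (by
      have h1 := hn1 n hn''
      have h2 : 0 ≤ (1 - c) ^ t := pow_nonneg (by linarith) _
      exact lt_of_le_of_lt (mul_le_mul_of_nonneg_left hX h2) h1)
  refine ⟨Z, hZ1, ?_, hZ3, ?_⟩
  · have : (Z.card : ℝ) ≤ (t : ℝ) * ((k * k : ℕ) : ℝ) := by exact_mod_cast hZ2
    linarith
  · intro A hA hdis
    have him : univ.image (A.orderEmbOfFin hA) = A := Finset.image_orderEmbOfFin_univ A hA
    have h1 := hZ4 (fun i => A.orderEmbOfFin hA i) (by
      rw [Finset.mem_filter]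
      exact ⟨Finset.mem_univ _, (A.orderEmbOfFin hA).injective⟩)
    have h2 : univ.image (fun i => A.orderEmbOfFin hA i) = A := him
    rw [h2] at h1
    exact h1 hdis

/-- prove this one (`one_abs` above may be used without proof) -/
theorem many_abs (k : ℕ) (hk : 2 ≤ k) (η : ℝ) (hη : 0 < η) (R : ℕ) (θ : ℝ) (hθ : 0 < θ) :
    ∃ n0 : ℕ, ∀ n : ℕ, n0 ≤ n →
      ∀ H : Finset (Finset (Fin n)), (∀ e ∈ H, e.card = k) →
      (∀ v, (1 / 2 + η) * ((n - 1).choose (k - 1) : ℕ) ≤ (deg H v : ℝ)) →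
      ∃ Z : Fin R → Finset (Fin n), (∀ i j, i ≠ j → Disjoint (Z i) (Z j)) ∧
        (∀ j, AbsSet H k (Z j)) ∧ (((univ.biUnion Z).card : ℕ) : ℝ) ≤ θ * n := by
  classical
  obtain ⟨β, hβ, hβ2⟩ := one_abs k hk η hη
  obtain ⟨θ1, hθ1⟩ : ∃ θ1, θ1 = min θ β / (R + 1) := ⟨_, rfl⟩
  have hmin : 0 < min θ β := lt_min hθ hβ
  have hR1 : (0 : ℝ) < R + 1 := by positivity
  have hθ1pos : 0 < θ1 := by rw [hθ1]; positivity
  have hRθ : (R : ℝ) * θ1 ≤ min θ β := by
    rw [hθ1, mul_div_assoc', div_le_iff₀ hR1]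
    nlinarith
  obtain ⟨n0, hn0⟩ := hβ2 θ1 hθ1pos
  refine ⟨n0, fun n hn H hH hdeg => ?_⟩
  have key : ∀ j : ℕ, j ≤ R → ∃ Z : Fin j → Finset (Fin n),
      (∀ i l, i ≠ l → Disjoint (Z i) (Z l)) ∧ (∀ l, AbsSet H k (Z l)) ∧
      (((univ.biUnion Z).card : ℕ) : ℝ) ≤ j * θ1 * n := by
    intro j
    induction j with
    | zero =>
      intro _
      refine ⟨fun i => i.elim0, fun i => i.elim0, fun i => i.elim0, ?_⟩
      simp
    | succ j ih =>
      intro hj
      obtain ⟨Z, h1, h2, h3⟩ := ih (by omega)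
      have hn00 : (0 : ℝ) ≤ n := Nat.cast_nonneg n
      have hjR : (j : ℝ) ≤ R := by exact_mod_cast (by omega : j ≤ R)
      have hF : (((univ.biUnion Z).card : ℕ) : ℝ) ≤ β * n := by
        refine h3.trans (mul_le_mul_of_nonneg_right ?_ hn00)
        calc (j : ℝ) * θ1 ≤ R * θ1 := mul_le_mul_of_nonneg_right hjR hθ1pos.le
          _ ≤ min θ β := hRθ
          _ ≤ β := min_le_right _ _
      obtain ⟨W, hW1, hW2, hW3⟩ := hn0 n hn H hH hdeg (univ.biUnion Z) hF
      have hdW : ∀ i, Disjoint W (Z i) := fun i =>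
        Finset.disjoint_of_subset_right (Finset.subset_biUnion_of_mem Z (Finset.mem_univ i)) hW1
      refine ⟨Fin.snoc (α := fun _ => Finset (Fin n)) Z W, ?_, ?_, ?_⟩
      · intro i l
        refine Fin.lastCases ?_ (fun i => ?_) i
        · refine Fin.lastCases ?_ (fun l => ?_) l
          · intro h; exact absurd rfl h
          · intro _
            rw [Fin.snoc_last, Fin.snoc_castSucc]
            exact hdW l
        · refine Fin.lastCases ?_ (fun l => ?_) l
          · intro _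
            rw [Fin.snoc_last, Fin.snoc_castSucc]
            exact (hdW i).symm
          · intro h
            rw [Fin.snoc_castSucc, Fin.snoc_castSucc]
            exact h1 i l (fun h' => h (by rw [h']))
      · intro l
        refine Fin.lastCases ?_ (fun l => ?_) l
        · rw [Fin.snoc_last]; exact hW3
        · rw [Fin.snoc_castSucc]; exact h2 l
      · have hsub : univ.biUnion (Fin.snoc (α := fun _ => Finset (Fin n)) Z W) ⊆
            univ.biUnion Z ∪ W := by
          intro x hx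
          rw [Finset.mem_biUnion] at hx
          obtain ⟨l, -, hl⟩ := hx
          revert hl
          refine Fin.lastCases ?_ (fun l => ?_) l
          · intro hl
            rw [Fin.snoc_last] at hl
            exact Finset.mem_union_right _ hl
          · intro hl
            rw [Fin.snoc_castSucc] at hl
            exact Finset.mem_union_left _ (Finset.mem_biUnion.2 ⟨l, Finset.mem_univ l, hl⟩)
        have hc : (univ.biUnion (Fin.snoc (α := fun _ => Finset (Fin n)) Z W)).card ≤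
            (univ.biUnion Z).card + W.card :=
          (Finset.card_le_card hsub).trans (Finset.card_union_le _ _)
        have hc' : (((univ.biUnion (Fin.snoc (α := fun _ => Finset (Fin n)) Z W)).card : ℕ) : ℝ) ≤
            (((univ.biUnion Z).card : ℕ) : ℝ) + ((W.card : ℕ) : ℝ) := by exact_mod_cast hc
        push_cast
        linarith
  obtain ⟨Z, h1, h2, h3⟩ := key R le_rfl
  refine ⟨Z, h1, h2, h3.trans (mul_le_mul_of_nonneg_right ?_ (Nat.cast_nonneg n))⟩
  exact hRθ.trans (min_le_left _ _)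

end Pool.Agent.FracEM.PMT
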