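import Mathlib
import Pool.Agent.FracEM.PM.Defs
import Pool.Agent.FracEM.Bound
import Pool.Agent.FracEM.Real

set_option autoImplicit false

namespace Pool.Agent.FracEM.PMT

open Finset Filter Topology Pool.Agent.FracEM

/-- prove this one by transferring `finite_bound` (usable without proof) along a bijection
`X ≃ Fin m` (e.g. `Finset.orderEmbOfFin` or `X.equivFinOfCardEq`) -/
theorem pack_on {n m k s : ℕ} (hk : 1 ≤ k) (hs : 1 ≤ s) (y : ℝ) (hy0 : 0 ≤ y) (hy1 : y < 1)
    (hy : y ^ k / (1 - y) ≤ ((m : ℝ) + 1) / s - k)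
    (X : Finset (Fin n)) (hX : X.card = m)
    (H : Finset (Finset (Fin n))) (hH : ∀ e ∈ H, e.card = k) (hHX : ∀ e ∈ H, e ⊆ X)
    (hcard : m.choose k < H.card + (⌊y * m⌋₊).choose k) :
    ∃ M : Finset (Finset (Fin n)), M ⊆ H ∧ M.card = s ∧
      ∀ e ∈ M, ∀ e' ∈ M, e ≠ e' → Disjoint e e' := by
  classical
  let g : Fin m ↪ Fin n := (X.orderEmbOfFin hX).toEmbedding
  have hgX : ∀ x ∈ X, ∃ i, g i = x := by
    intro x hx
    have h1 : x ∈ Set.range (X.orderEmbOfFin hX) := by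
      rw [Finset.range_orderEmbOfFin]
      exact hx
    obtain ⟨i, hi⟩ := h1
    exact ⟨i, hi⟩
  let φ : Finset (Fin m) ↪ Finset (Fin n) := ⟨fun e => e.map g, Finset.map_injective g⟩
  have hφ : ∀ e, φ e = e.map g := fun e => rfl
  let H' : Finset (Finset (Fin m)) := Finset.univ.filter (fun e => e.map g ∈ H)
  have hH'mem : ∀ e, e ∈ H' ↔ e.map g ∈ H := fun e => by simp [H']
  have hmapH : H'.map φ = H := by
    ext e
    rw [Finset.mem_map]
    constructor
    · rintro ⟨e', he', rfl⟩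
      exact (hH'mem e').1 he'
    · intro he
      have hsub : e ⊆ (Finset.univ : Finset (Fin m)).map g := by
        intro x hx
        obtain ⟨i, hi⟩ := hgX x (hHX e he hx)
        rw [Finset.mem_map]
        exact ⟨i, Finset.mem_univ i, hi⟩
      obtain ⟨u, hu, hue⟩ := Finset.subset_map_iff.1 hsub
      refine ⟨u, ?_, hue.symm⟩
      rw [hH'mem, ← hue]
      exact he
  have hcardH : H'.card = H.card := by
    rw [← hmapH, Finset.card_map]
  have hcard' : m.choose k < H'.card + (⌊y * m⌋₊).choose k := by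
    rw [hcardH]
    exact hcard
  have hHk : ∀ e ∈ H', e.card = k := by
    intro e he
    have h1 := hH _ ((hH'mem e).1 he)
    rwa [Finset.card_map] at h1
  obtain ⟨M, hMH, hMs, hMd⟩ := finite_bound hk hs y hy0 hy1 hy H' hHk hcard'
  refine ⟨M.map φ, ?_, ?_, ?_⟩
  · rw [← hmapH]
    exact Finset.map_subset_map.2 hMH
  · rw [Finset.card_map]
    exact hMs
  · intro e he e' he' hne
    rw [Finset.mem_map] at he he'
    obtain ⟨u, hu, rfl⟩ := he
    obtain ⟨u', hu', rfl⟩ := he'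
    have huu : u ≠ u' := fun h => hne (by rw [h])
    have hd := hMd u hu u' hu' huu
    rw [hφ, hφ]
    exact (Finset.disjoint_map g).2 hd

/-- prove this one (the two lemmas above may be used without proof). -/
theorem choose_T (r : ℕ) (hr : 2 ≤ r) (y : ℝ) (hy0 : 0 < y) (hy1 : y < 1) (hy : y ^ r = 1 - y)
    (δ : ℝ) (hδ : 0 < δ) :
    ∃ T0 : ℕ, ∀ T : ℕ, T0 ≤ T → ∀ (n : ℕ) (X : Finset (Fin n)), X.card = (r + 1) * T →
      ∀ L : Finset (Finset (Fin n)), (∀ e ∈ L, e.card = r) → (∀ e ∈ L, e ⊆ X) →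
      (y + δ) * ((((r + 1) * T).choose r : ℕ) : ℝ) ≤ (L.card : ℝ) →
      ∃ M : Finset (Finset (Fin n)), M ⊆ L ∧ M.card = T + 1 ∧
        ∀ e ∈ M, ∀ e' ∈ M, e ≠ e' → Disjoint e e' := by
  -- choose y0
  have hcont : Tendsto (fun x : ℝ => x ^ r) (𝓝[<] y) (𝓝 (y ^ r)) :=
    ((continuous_pow r).tendsto y).mono_left nhdsWithin_le_nhds
  have e1 : ∀ᶠ x in 𝓝[<] y, y ^ r - δ / 4 < x ^ r :=
    hcont.eventually (lt_mem_nhds (by linarith))
  have e2 : ∀ᶠ x in 𝓝[<] y, x < y := self_mem_nhdsWithin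
  have e3 : ∀ᶠ x in 𝓝[<] y, 0 < x := (lt_mem_nhds hy0).filter_mono nhdsWithin_le_nhds
  obtain ⟨y0, ⟨h1, h2⟩, h3⟩ := ((e1.and e2).and e3).exists
  have hy01 : y0 < 1 := h2.trans hy1
  have hr0 : r ≠ 0 := by omega
  have hlt : y0 ^ r / (1 - y0) < 1 := by
    rw [div_lt_one (by linarith)]
    have : y0 ^ r < y ^ r := pow_lt_pow_left₀ h2 h3.le hr0
    linarith
  -- the ratio
  have hmul : Tendsto (fun T : ℕ => (r + 1) * T) atTop atTop :=
    tendsto_id.const_mul_atTop' (by omega)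
  have hq := (FEM_choose_ratio r y0 h3 hy01).comp hmul
  have e4 : ∀ᶠ T : ℕ in atTop, y0 ^ r - δ / 4 <
      (((⌊y0 * (((r + 1) * T : ℕ) : ℝ)⌋₊).choose r : ℕ) : ℝ) / ((((r + 1) * T).choose r : ℕ) : ℝ) :=
    hq.eventually (lt_mem_nhds (by linarith))
  have hlim : Tendsto (fun T : ℕ => 1 - (r : ℝ) / ((T : ℝ) + 1)) atTop (𝓝 1) := by
    have h := (tendsto_const_div_atTop_nhds_zero_nat (r : ℝ)).comp (tendsto_add_atTop_nat 1)
    have h' : Tendsto (fun T : ℕ => 1 - (r : ℝ) / ((T : ℝ) + 1)) atTop (𝓝 (1 - 0)) := by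
      refine tendsto_const_nhds.sub (h.congr (fun T => ?_))
      simp [Function.comp]
    simpa using h'
  have e5 : ∀ᶠ T : ℕ in atTop, y0 ^ r / (1 - y0) < 1 - (r : ℝ) / ((T : ℝ) + 1) :=
    hlim.eventually (lt_mem_nhds hlt)
  have e6 : ∀ᶠ T : ℕ in atTop, r ≤ (r + 1) * T := by
    filter_upwards [eventually_ge_atTop 1] with T hT
    nlinarith
  obtain ⟨T0, hT0⟩ := eventually_atTop.mp ((e4.and e5).and e6)
  refine ⟨T0, fun T hT n X hX L hL hLX hcard => ?_⟩
  obtain ⟨⟨a4, a5⟩, a6⟩ := hT0 T hT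
  have hpos : (0 : ℝ) < ((((r + 1) * T).choose r : ℕ) : ℝ) := by
    exact_mod_cast Nat.choose_pos a6
  refine pack_on (by omega : 1 ≤ r) (by omega : 1 ≤ T + 1) y0 h3.le hy01 ?_ X hX L hL hLX ?_
  · refine a5.le.trans (le_of_eq ?_)
    push_cast
    have : (T : ℝ) + 1 ≠ 0 := by positivity
    field_simp
    ring
  · rw [lt_div_iff₀ hpos] at a4
    have h5 : (y ^ r - δ / 2) * ((((r + 1) * T).choose r : ℕ) : ℝ) <
        (((⌊y0 * (((r + 1) * T : ℕ) : ℝ)⌋₊).choose r : ℕ) : ℝ) := by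
      refine lt_of_le_of_lt ?_ a4
      apply mul_le_mul_of_nonneg_right _ hpos.le
      linarith
    have h6 : ((((r + 1) * T).choose r : ℕ) : ℝ) < (L.card : ℝ) +
        (((⌊y0 * (((r + 1) * T : ℕ) : ℝ)⌋₊).choose r : ℕ) : ℝ) := by
      rw [hy] at h5
      nlinarith [mul_pos hδ hpos]
    exact_mod_cast h6

open Classical in
/-- average over T-subsets of blocks -/
theorem avg_blocks {n b r T : ℕ} (B : Finset (Finset (Fin n))) (hb : B.card = b) (hr : r ≤ T)
    (hT : T ≤ b) (L : Finset (Finset (Fin n))) (hL : ∀ S ∈ L, S ⊆ B.biUnion id ∧ S.card ≤ r) :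
    L.card * (b - r).choose (T - r) ≤
      ∑ t ∈ B.powersetCard T, (L.filter (fun S => S ⊆ t.biUnion id)).card := by
  have hswap : ∑ t ∈ B.powersetCard T, (L.filter (fun S => S ⊆ t.biUnion id)).card =
      ∑ S ∈ L, ((B.powersetCard T).filter (fun t => S ⊆ t.biUnion id)).card := by
    simp_rw [Finset.card_filter]
    exact Finset.sum_comm
  rw [hswap, ← smul_eq_mul, ← Finset.sum_const]
  refine Finset.sum_le_sum fun S hS => ?_
  obtain ⟨hSB, hSr⟩ := hL S hS
  have hch : ∀ x ∈ S, ∃ g ∈ B, x ∈ g := by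
    intro x hx
    have := hSB hx
    rw [Finset.mem_biUnion] at this
    obtain ⟨g, hg, hxg⟩ := this
    exact ⟨g, hg, hxg⟩
  choose! g hgB hgx using hch
  have hJ0B : S.image g ⊆ B := by
    intro y hy
    rw [Finset.mem_image] at hy
    obtain ⟨x, hx, rfl⟩ := hy
    exact hgB x hx
  have hJ0c : (S.image g).card ≤ r := Finset.card_image_le.trans hSr
  have hrb : r ≤ B.card := by rw [hb]; exact hr.trans hT
  obtain ⟨J, hJ0J, hJB, hJc⟩ := Finset.exists_subsuperset_card_eq hJ0B hJ0c hrb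
  have hSJ : S ⊆ J.biUnion id := by
    intro x hx
    rw [Finset.mem_biUnion]
    exact ⟨g x, hJ0J (Finset.mem_image_of_mem g hx), hgx x hx⟩
  have hcard : (b - r).choose (T - r) = ((B \ J).powersetCard (T - r)).card := by
    rw [Finset.card_powersetCard, Finset.card_sdiff_of_subset hJB, hb, hJc]
  rw [hcard]
  refine Finset.card_le_card_of_injOn (fun t' => t' ∪ J) ?_ ?_
  · intro t' ht'
    have ht'2 := Finset.mem_powersetCard.mp (Finset.mem_coe.mp ht')
    obtain ⟨hs, hc⟩ := ht'2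
    have hdisj : Disjoint t' J := by
      rw [Finset.disjoint_left]
      intro a ha haJ
      exact (Finset.mem_sdiff.mp (hs ha)).2 haJ
    show t' ∪ J ∈ ((((B.powersetCard T).filter (fun t => S ⊆ t.biUnion id)) : Finset _) : Set _)
    rw [Finset.mem_coe, Finset.mem_filter, Finset.mem_powersetCard]
    refine ⟨⟨?_, ?_⟩, ?_⟩
    · exact Finset.union_subset (hs.trans Finset.sdiff_subset) hJB
    · rw [Finset.card_union_of_disjoint hdisj, hc, hJc]
      omega
    · refine hSJ.trans ?_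
      exact Finset.biUnion_subset_biUnion_of_subset_left _ Finset.subset_union_right
  · intro t1 h1 t2 h2 h12
    have e1 := (Finset.mem_powersetCard.mp (Finset.mem_coe.mp h1)).1
    have e2 := (Finset.mem_powersetCard.mp (Finset.mem_coe.mp h2)).1
    have h12' : t1 ∪ J = t2 ∪ J := h12
    ext a
    constructor
    · intro ha
      have haJ := (Finset.mem_sdiff.mp (e1 ha)).2
      have : a ∈ t2 ∪ J := h12' ▸ Finset.mem_union_left _ ha
      rcases Finset.mem_union.mp this with h | h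
      · exact h
      · exact absurd h haJ
    · intro ha
      have haJ := (Finset.mem_sdiff.mp (e2 ha)).2
      have : a ∈ t1 ∪ J := h12'.symm ▸ Finset.mem_union_left _ ha
      rcases Finset.mem_union.mp this with h | h
      · exact h
      · exact absurd h haJ

/-- Markov type bound -/
theorem markov {ι : Type*} (I : Finset ι) (f : ι → ℝ) (D p δ : ℝ) (hD : 0 < D) (hp : 0 ≤ p)
    (hδ : 0 < δ) (hf : ∀ i ∈ I, f i ≤ D)
    (hsum : (p + δ) * D * (I.card : ℝ) ≤ ∑ i ∈ I, f i) :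
    δ / 2 * (I.card : ℝ) ≤ ((I.filter (fun i => (p + δ / 2) * D ≤ f i)).card : ℝ) := by
  have hsplit := Finset.sum_filter_add_sum_filter_not I (fun i => (p + δ / 2) * D ≤ f i) f
  have h1 : ∑ i ∈ I.filter (fun i => (p + δ / 2) * D ≤ f i), f i ≤
      ((I.filter (fun i => (p + δ / 2) * D ≤ f i)).card : ℝ) * D := by
    rw [← nsmul_eq_mul]
    exact Finset.sum_le_card_nsmul _ _ _ fun i hi => hf i (Finset.mem_filter.mp hi).1
  have h2 : ∑ i ∈ I.filter (fun i => ¬ (p + δ / 2) * D ≤ f i), f i ≤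
      ((I.filter (fun i => ¬ (p + δ / 2) * D ≤ f i)).card : ℝ) * ((p + δ / 2) * D) := by
    rw [← nsmul_eq_mul]
    exact Finset.sum_le_card_nsmul _ _ _ fun i hi => le_of_lt (not_le.mp (Finset.mem_filter.mp hi).2)
  have h3 : ((I.filter (fun i => ¬ (p + δ / 2) * D ≤ f i)).card : ℝ) ≤ (I.card : ℝ) := by
    exact_mod_cast Finset.card_filter_le _ _
  have hpD : 0 ≤ (p + δ / 2) * D := by positivity
  have h4 : ((I.filter (fun i => ¬ (p + δ / 2) * D ≤ f i)).card : ℝ) * ((p + δ / 2) * D) ≤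
      (I.card : ℝ) * ((p + δ / 2) * D) := mul_le_mul_of_nonneg_right h3 hpD
  have h5 : (δ / 2 * (I.card : ℝ)) * D ≤
      ((I.filter (fun i => (p + δ / 2) * D ≤ f i)).card : ℝ) * D := by
    nlinarith
  exact le_of_mul_le_mul_right h5 hD

/-- augmentation -/
theorem augment {n k T : ℕ} (H : Finset (Finset (Fin n))) (hH : ∀ e ∈ H, e.card = k) (hk : 2 ≤ k)
    (M BU : Finset (Finset (Fin n))) (hM : M ⊆ H) (hB : Matching (M ∪ BU))
    (t : Finset (Finset (Fin n))) (ht : t ⊆ M ∪ BU) (htT : t.card = T)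
    (V : Finset (Fin n)) (hVM : Disjoint V (M.biUnion id)) (hVt : Disjoint V (t.biUnion id))
    (hVc : V.card = T + 1) (L : Finset (Finset (Fin n))) (hLc : L.card = T + 1)
    (hLm : Matching L) (hLk : ∀ S ∈ L, S.card = k - 1 ∧ S ⊆ t.biUnion id)
    (hl : ∀ v ∈ V, ∀ S ∈ L, insert v S ∈ H) :
    ∃ M' : Finset (Finset (Fin n)), M' ⊆ H ∧ Matching M' ∧ M.card < M'.card := by
  classical
  have e : V ≃ L := Finset.equivOfCardEq (hVc.trans hLc.symm)
  have hnt : ∀ v ∈ V, ∀ S ∈ L, v ∉ S := by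
    intro v hv S hS hvS
    exact (Finset.disjoint_left.1 hVt hv) ((hLk S hS).2 hvS)
  set f : V → Finset (Fin n) := fun v => insert v.1 (e v).1 with hf
  have hfinj : Function.Injective f := by
    intro v v' h
    have h1 : v.1 ∈ f v' := by
      rw [← h]
      exact Finset.mem_insert_self _ _
    rcases Finset.mem_insert.1 h1 with h2 | h2
    · exact Subtype.ext h2
    · exact absurd h2 (hnt v.1 v.2 _ (e v').2)
  have hcard : (V.attach.image f).card = T + 1 := by
    rw [Finset.card_image_of_injective _ hfinj, Finset.card_attach, hVc]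
  have hmem : ∀ g ∈ V.attach.image f, ∃ v : V, g = f v := by
    intro g hg
    obtain ⟨v, _, rfl⟩ := Finset.mem_image.1 hg
    exact ⟨v, rfl⟩
  have hMt : ∀ g ∈ M \ t, ∀ v : V, Disjoint g (f v) := by
    intro g hg v
    obtain ⟨hgM, hgt⟩ := Finset.mem_sdiff.1 hg
    rw [Finset.disjoint_left]
    intro x hx hx'
    rcases Finset.mem_insert.1 hx' with h2 | h2
    · subst h2
      exact (Finset.disjoint_left.1 hVM v.2) (Finset.mem_biUnion.2 ⟨g, hgM, hx⟩)
    · have h3 := (hLk _ (e v).2).2 h2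
      obtain ⟨g', hg', hxg'⟩ := Finset.mem_biUnion.1 h3
      have hne : g ≠ g' := by
        rintro rfl
        exact hgt hg'
      exact (Finset.disjoint_left.1
        (hB g (Finset.mem_union_left _ hgM) g' (ht hg') hne) hx) hxg'
  refine ⟨(M \ t) ∪ V.attach.image f, ?_, ?_, ?_⟩
  · intro g hg
    rcases Finset.mem_union.1 hg with h1 | h1
    · exact hM (Finset.mem_sdiff.1 h1).1
    · obtain ⟨v, rfl⟩ := hmem g h1
      exact hl v.1 v.2 _ (e v).2
  · intro g hg g' hg' hne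
    rcases Finset.mem_union.1 hg with h1 | h1
    · rcases Finset.mem_union.1 hg' with h2 | h2
      · exact hB g (Finset.mem_union_left _ (Finset.mem_sdiff.1 h1).1) g'
          (Finset.mem_union_left _ (Finset.mem_sdiff.1 h2).1) hne
      · obtain ⟨v, rfl⟩ := hmem g' h2
        exact hMt g h1 v
    · obtain ⟨v, rfl⟩ := hmem g h1
      rcases Finset.mem_union.1 hg' with h2 | h2
      · exact (hMt g' h2 v).symm
      · obtain ⟨v', rfl⟩ := hmem g' h2
        have hvv : v ≠ v' := fun h => hne (by rw [h])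
        have hee : (e v).1 ≠ (e v').1 := fun h => hvv (e.injective (Subtype.ext h))
        have hd := hLm _ (e v).2 _ (e v').2 hee
        rw [Finset.disjoint_left]
        intro x hx hx'
        rcases Finset.mem_insert.1 hx with h3 | h3
        · rcases Finset.mem_insert.1 hx' with h4 | h4
          · exact hvv (Subtype.ext (h3.symm.trans h4))
          · rw [h3] at h4
            exact hnt v.1 v.2 _ (e v').2 h4
        · rcases Finset.mem_insert.1 hx' with h4 | h4
          · rw [h4] at h3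
            exact hnt v'.1 v'.2 _ (e v).2 h3
          · exact (Finset.disjoint_left.1 hd h3) h4
  · have hdisj : Disjoint (M \ t) (V.attach.image f) := by
      rw [Finset.disjoint_left]
      intro g hg hg'
      obtain ⟨v, rfl⟩ := hmem g hg'
      have h1 := hMt _ hg v
      exact (Finset.disjoint_left.1 h1 (Finset.mem_insert_self v.1 _))
        (Finset.mem_insert_self v.1 _)
    rw [Finset.card_union_of_disjoint hdisj, hcard]
    have h1 := Finset.le_card_sdiff t M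
    omega

theorem numeric_ratio (r : ℕ) (φ : ℕ → ℕ) (hφ : Tendsto φ atTop atTop) (c : ℝ)
    (hc : Tendsto (fun n : ℕ => (φ n : ℝ) / n) atTop (𝓝 c)) :
    Tendsto (fun n : ℕ => ((φ n).choose r : ℝ) / (n.choose r : ℝ)) atTop (𝓝 (c ^ r)) := by
  have hA : Tendsto (fun n : ℕ => ((n.choose r : ℕ) : ℝ) / ((n : ℝ) ^ r / (r.factorial : ℝ))) atTop
      (𝓝 1) := by
    have h := isEquivalent_choose r
    have hz : ∀ᶠ n : ℕ in atTop, (fun n : ℕ => (n : ℝ) ^ r / (r.factorial : ℝ)) n ≠ 0 := by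
      filter_upwards [eventually_gt_atTop 0] with n hn
      have : (0 : ℝ) < n := by exact_mod_cast hn
      have h2 : (0 : ℝ) < r.factorial := by exact_mod_cast Nat.factorial_pos r
      positivity
    exact (Asymptotics.isEquivalent_iff_tendsto_one hz).1 h
  have hB := hA.comp hφ
  have h1 := (hB.div hA one_ne_zero).mul (hc.pow r)
  rw [div_one, one_mul] at h1
  refine h1.congr' ?_
  filter_upwards [eventually_gt_atTop 0, hφ.eventually (eventually_gt_atTop 0)] with n hn hφn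
  have h2 : (0 : ℝ) < n := by exact_mod_cast hn
  have h3 : (0 : ℝ) < φ n := by exact_mod_cast hφn
  have h4 : (0 : ℝ) < r.factorial := by exact_mod_cast Nat.factorial_pos r
  simp only [Function.comp_apply, Pi.div_apply]
  by_cases h5 : ((n.choose r : ℕ) : ℝ) = 0
  · rw [h5]
    simp
  · rw [div_pow]
    field_simp

/-- numeric lemma (no sets). Hint: `C(b,T)·C(T,r) = C(b,r)·C(b-r,T-r)` (Nat.choose_mul), then
`C(k b - 1, r)/C(b,r) → k^r` as b → ∞ and `C(kT,r)/C(T,r) → k^r` as T → ∞ (isEquivalent_choose). -/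
theorem numeric (k r : ℕ) (hk : 2 ≤ k) (hr : 1 ≤ r) (y ε : ℝ) (hy : 0 < y) (hε : 0 < ε) :
    ∃ T0 : ℕ, ∀ T : ℕ, T0 ≤ T → ∃ b0 : ℕ, ∀ b : ℕ, b0 ≤ b →
      (r ≤ T ∧ T ≤ b ∧ 8 * (T : ℝ) ≤ ε * b ∧
      (y + ε / 2) * (((k * T).choose r : ℕ) : ℝ) * ((b.choose T : ℕ) : ℝ) ≤
        (y + ε) * (((k * b - 1).choose r : ℕ) : ℝ) * (((b - r).choose (T - r) : ℕ) : ℝ)) := by
  have hk0 : (0 : ℝ) < k := by
    have : 0 < k := by omega
    exact_mod_cast this
  have hkr : (0 : ℝ) < (k : ℝ) ^ r := pow_pos hk0 r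
  have hlim1 : Tendsto (fun n : ℕ => ((k * n).choose r : ℝ) / (n.choose r : ℝ)) atTop
      (𝓝 ((k : ℝ) ^ r)) := by
    refine numeric_ratio r (fun n => k * n) ?_ k ?_
    · exact tendsto_id.const_mul_atTop' (by omega)
    · refine (tendsto_const_nhds (x := (k : ℝ))).congr' ?_
      filter_upwards [eventually_gt_atTop 0] with n hn
      have h2 : (0 : ℝ) < n := by exact_mod_cast hn
      push_cast
      field_simp
  have hlim2 : Tendsto (fun n : ℕ => ((k * n - 1).choose r : ℝ) / (n.choose r : ℝ)) atTop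
      (𝓝 ((k : ℝ) ^ r)) := by
    refine numeric_ratio r (fun n => k * n - 1) ?_ k ?_
    · refine tendsto_atTop_mono (f := fun n => n) (fun n => ?_) tendsto_id
      rcases Nat.eq_zero_or_pos n with h | h
      · rw [h]
        exact Nat.zero_le _
      · have : 2 * n ≤ k * n := Nat.mul_le_mul_right n hk
        show n ≤ k * n - 1
        omega
    · have h3 : Tendsto (fun n : ℕ => (k : ℝ) - 1 / (n : ℝ)) atTop (𝓝 ((k : ℝ) - 0)) :=
        tendsto_const_nhds.sub tendsto_one_div_atTop_nhds_zero_nat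
      rw [sub_zero] at h3
      refine h3.congr' ?_
      filter_upwards [eventually_gt_atTop 0] with n hn
      have h2 : (0 : ℝ) < n := by exact_mod_cast hn
      have h4 : 1 ≤ k * n := Nat.mul_pos (by omega) hn
      rw [Nat.cast_sub h4]
      push_cast
      field_simp
  -- the gap
  obtain ⟨δ, hδ, hgap⟩ : ∃ δ : ℝ, 0 < δ ∧ (y + ε / 2) * ((k : ℝ) ^ r + δ) ≤
      (y + ε) * ((k : ℝ) ^ r - δ) := by
    refine ⟨ε / 2 * (k : ℝ) ^ r / (2 * y + 3 / 2 * ε), by positivity, ?_⟩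
    have hd : (0 : ℝ) < 2 * y + 3 / 2 * ε := by positivity
    have h1 : (2 * y + 3 / 2 * ε) * (ε / 2 * (k : ℝ) ^ r / (2 * y + 3 / 2 * ε)) =
        ε / 2 * (k : ℝ) ^ r := by
      field_simp
    linarith
  have hev1 : ∀ᶠ T : ℕ in atTop, ((k * T).choose r : ℝ) / (T.choose r : ℝ) ≤ (k : ℝ) ^ r + δ :=
    (hlim1.eventually (eventually_le_nhds (by linarith)))
  have hev2 : ∀ᶠ b : ℕ in atTop, (k : ℝ) ^ r - δ ≤ ((k * b - 1).choose r : ℝ) / (b.choose r : ℝ) :=
    (hlim2.eventually (eventually_ge_nhds (by linarith)))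
  obtain ⟨T1, hT1⟩ := eventually_atTop.1 hev1
  obtain ⟨b1, hb1⟩ := eventually_atTop.1 hev2
  refine ⟨max T1 r, fun T hT => ?_⟩
  obtain ⟨b2, hb2⟩ := exists_nat_gt (8 * (T : ℝ) / ε)
  refine ⟨max (max b1 b2) T, fun b hb => ?_⟩
  have hTr : r ≤ T := (le_max_right _ _).trans hT
  have hTb : T ≤ b := (le_max_right _ _).trans hb
  have hbb1 : b1 ≤ b := ((le_max_left _ _).trans (le_max_left _ _)).trans hb
  have hbb2 : b2 ≤ b := ((le_max_right _ _).trans (le_max_left _ _)).trans hb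
  have hbb2' : (b2 : ℝ) ≤ b := by exact_mod_cast hbb2
  refine ⟨hTr, hTb, ?_, ?_⟩
  · have h1 : 8 * (T : ℝ) / ε ≤ b := hb2.le.trans hbb2'
    rw [div_le_iff₀ hε] at h1
    linarith
  · have c1 : (0 : ℝ) < (T.choose r : ℕ) := by exact_mod_cast Nat.choose_pos hTr
    have c2 : (0 : ℝ) < (b.choose r : ℕ) := by exact_mod_cast Nat.choose_pos (hTr.trans hTb)
    have c3 : (0 : ℝ) ≤ (b.choose T : ℕ) := Nat.cast_nonneg _
    have q1 := hT1 T ((le_max_left _ _).trans hT)
    have q2 := hb1 b hbb1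
    rw [div_le_iff₀ c1] at q1
    rw [le_div_iff₀ c2] at q2
    have hid : ((b.choose T : ℕ) : ℝ) * ((T.choose r : ℕ) : ℝ) =
        ((b.choose r : ℕ) : ℝ) * (((b - r).choose (T - r) : ℕ) : ℝ) := by
      exact_mod_cast Nat.choose_mul hTr
    have hyε : 0 < y + ε := by positivity
    have hyε2 : 0 < y + ε / 2 := by positivity
    have c4 : (0 : ℝ) ≤ ((b - r).choose (T - r) : ℕ) := Nat.cast_nonneg _
    calc (y + ε / 2) * (((k * T).choose r : ℕ) : ℝ) * ((b.choose T : ℕ) : ℝ)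
        ≤ (y + ε / 2) * (((k : ℝ) ^ r + δ) * (T.choose r : ℕ)) * ((b.choose T : ℕ) : ℝ) := by
          exact mul_le_mul_of_nonneg_right (mul_le_mul_of_nonneg_left q1 hyε2.le) c3
      _ = ((y + ε / 2) * ((k : ℝ) ^ r + δ)) *
          (((b.choose T : ℕ) : ℝ) * ((T.choose r : ℕ) : ℝ)) := by ring
      _ ≤ ((y + ε) * ((k : ℝ) ^ r - δ)) *
          (((b.choose T : ℕ) : ℝ) * ((T.choose r : ℕ) : ℝ)) :=
          mul_le_mul_of_nonneg_right hgap (mul_nonneg c3 c1.le)
      _ = (y + ε) * (((k : ℝ) ^ r - δ) * (b.choose r : ℕ)) *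
          (((b - r).choose (T - r) : ℕ) : ℝ) := by
          rw [hid]
          ring
      _ ≤ (y + ε) * (((k * b - 1).choose r : ℕ) : ℝ) * (((b - r).choose (T - r) : ℕ) : ℝ) :=
          mul_le_mul_of_nonneg_right (mul_le_mul_of_nonneg_left q2 hyε.le) c4

end Pool.Agent.FracEM.PMT
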