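import Mathlib
import Pool.Agent.FracEM.PM.Pk
import Pool.Agent.FracEM.PM.Abs1

set_option autoImplicit false

namespace Pool.Agent.FracEM.PMT

open Finset

open Classical in
theorem good_count_bad {n T b : ℕ} (B : Finset (Finset (Fin n))) (hB : Matching B)
    (hb : B.card = b) (hT1 : 1 ≤ T) (hTb : T ≤ b) (u : Fin n) :
    b * ((B.powersetCard T).filter (fun t => u ∈ t.biUnion id)).card ≤ T * b.choose T := by
  by_cases h : ∃ e0 ∈ B, u ∈ e0
  · obtain ⟨e0, he0, hu0⟩ := h
    have hsub : ((B.powersetCard T).filter (fun t => u ∈ t.biUnion id)).card ≤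
        ((B.erase e0).powersetCard (T - 1)).card := by
      have hmem : ∀ t ∈ (B.powersetCard T).filter (fun t => u ∈ t.biUnion id), e0 ∈ t := by
        intro t ht
        rw [mem_filter, mem_powersetCard] at ht
        obtain ⟨⟨htB, _⟩, hut⟩ := ht
        rw [mem_biUnion] at hut
        obtain ⟨e, het, hue⟩ := hut
        have : e = e0 := by
          by_contra hne
          have hd := hB e (htB het) e0 he0 hne
          exact (Finset.disjoint_left.mp hd) hue hu0
        rwa [← this]
      apply Finset.card_le_card_of_injOn (fun t => t.erase e0)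
      · intro t ht
        have ht' := ht
        have hm := hmem t (by simpa using ht)
        rw [Finset.mem_coe, mem_filter, mem_powersetCard] at ht'
        rw [Finset.mem_coe, mem_powersetCard]
        refine ⟨Finset.erase_subset_erase _ ht'.1.1, ?_⟩
        rw [Finset.card_erase_of_mem hm, ht'.1.2]
      · intro t ht t' ht' heq
        have hm := hmem t (by simpa using ht)
        have hm' := hmem t' (by simpa using ht')
        have : insert e0 (t.erase e0) = insert e0 (t'.erase e0) := by
          simp only at heq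
          rw [heq]
        rwa [Finset.insert_erase hm, Finset.insert_erase hm'] at this
    rw [card_powersetCard, Finset.card_erase_of_mem he0, hb] at hsub
    obtain ⟨b', rfl⟩ : ∃ b', b = b' + 1 := ⟨b - 1, by omega⟩
    obtain ⟨T', rfl⟩ : ∃ T', T = T' + 1 := ⟨T - 1, by omega⟩
    have e := Nat.add_one_mul_choose_eq b' T'
    have : (b' + 1) * ((B.powersetCard (T' + 1)).filter (fun t => u ∈ t.biUnion id)).card ≤
        (b' + 1) * b'.choose T' := Nat.mul_le_mul_left _ (by simpa using hsub)
    calc _ ≤ (b' + 1) * b'.choose T' := this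
      _ = (T' + 1) * (b' + 1).choose (T' + 1) := by rw [e, mul_comm]
      _ ≤ _ := le_rfl
  · have : (B.powersetCard T).filter (fun t => u ∈ t.biUnion id) = ∅ := by
      rw [Finset.filter_eq_empty_iff]
      intro t ht hu
      rw [mem_powersetCard] at ht
      rw [mem_biUnion] at hu
      obtain ⟨e, het, hue⟩ := hu
      exact h ⟨e, ht.1 het, hue⟩
    rw [this]; simp

open Classical in
/-- prove this one (the two lemmas above may be used without proof) -/
theorem good_count {n k T b : ℕ} (hk : 2 ≤ k) (y ε : ℝ) (hy : 0 < y) (hε : 0 < ε)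
    (H : Finset (Finset (Fin n)))
    (B : Finset (Finset (Fin n))) (hB : Matching B) (hBk : ∀ e ∈ B, e.card = k) (hb : B.card = b)
    (hrT : k - 1 ≤ T) (hTb : T ≤ b) (hTb2 : 8 * (T : ℝ) ≤ ε * b)
    (hnum : (y + ε / 2) * (((k * T).choose (k - 1) : ℕ) : ℝ) * ((b.choose T : ℕ) : ℝ) ≤
        (y + ε) * (((k * b - 1).choose (k - 1) : ℕ) : ℝ) *
          (((b - (k - 1)).choose (T - (k - 1)) : ℕ) : ℝ))
    (u : Fin n)
    (hdeg : (y + ε) * (((k * b - 1).choose (k - 1) : ℕ) : ℝ) ≤
      ((link H (k - 1) u (B.biUnion id)).card : ℝ)) :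
    ε / 8 * ((b.choose T : ℕ) : ℝ) ≤
      (((B.powersetCard T).filter (fun t => u ∉ t.biUnion id ∧
        (y + ε / 4) * (((k * T).choose (k - 1) : ℕ) : ℝ) ≤
          ((link H (k - 1) u (t.biUnion id)).card : ℝ))).card : ℝ) := by
  set I := B.powersetCard T with hI
  set f : Finset (Finset (Fin n)) → ℝ := fun t => ((link H (k - 1) u (t.biUnion id)).card : ℝ) with hf
  set D : ℝ := (((k * T).choose (k - 1) : ℕ) : ℝ) with hD
  have hT1 : 1 ≤ T := by omega
  have hIc : I.card = b.choose T := by rw [hI, card_powersetCard, hb]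
  have hD0 : 0 < D := by
    rw [hD]
    have : k - 1 ≤ k * T := by
      calc k - 1 ≤ k := by omega
        _ ≤ k * T := Nat.le_mul_of_pos_right k hT1
    exact_mod_cast Nat.choose_pos this
  have hfD : ∀ t ∈ I, f t ≤ D := by
    intro t ht
    rw [hI, mem_powersetCard] at ht
    have h1 : (link H (k - 1) u (t.biUnion id)).card ≤ (k * T).choose (k - 1) := by
      have h2 : (t.biUnion id).card ≤ k * T := by
        calc (t.biUnion id).card ≤ ∑ e ∈ t, (id e).card := card_biUnion_le
          _ = ∑ e ∈ t, k := Finset.sum_congr rfl (fun e he => hBk e (ht.1 he))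
          _ = k * T := by rw [Finset.sum_const, ht.2, smul_eq_mul, mul_comm]
      calc (link H (k - 1) u (t.biUnion id)).card
          ≤ ((t.biUnion id).powersetCard (k - 1)).card := Finset.card_filter_le _ _
        _ = (t.biUnion id).card.choose (k - 1) := card_powersetCard _ _
        _ ≤ _ := Nat.choose_le_choose _ h2
    simp only [hf, hD]
    exact_mod_cast h1
  have havg := avg_blocks B hb hrT hTb (link H (k - 1) u (B.biUnion id)) (by
    intro S hS
    unfold link at hS
    rw [mem_filter, mem_powersetCard] at hS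
    exact ⟨hS.1.1, hS.1.2.le⟩)
  have hlink : ∀ t ∈ I, ((link H (k - 1) u (B.biUnion id)).filter
      (fun S => S ⊆ t.biUnion id)).card = (link H (k - 1) u (t.biUnion id)).card := by
    intro t ht
    rw [hI, mem_powersetCard] at ht
    congr 1
    ext S
    simp only [link, mem_filter, mem_powersetCard]
    constructor
    · rintro ⟨⟨⟨_, h2⟩, h3⟩, h4⟩
      exact ⟨⟨h4, h2⟩, h3⟩
    · rintro ⟨⟨h1, h2⟩, h3⟩
      exact ⟨⟨⟨h1.trans (Finset.biUnion_subset_biUnion_of_subset_left _ ht.1), h2⟩, h3⟩, h1⟩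
  rw [← hI, Finset.sum_congr rfl hlink] at havg
  have havg' : ((link H (k - 1) u (B.biUnion id)).card : ℝ) *
      (((b - (k - 1)).choose (T - (k - 1)) : ℕ) : ℝ) ≤ ∑ t ∈ I, f t := by
    simp only [hf]
    exact_mod_cast havg
  have hm := markov I f D y (ε / 2) hD0 hy.le (by positivity) hfD (by
    rw [hIc]
    refine hnum.trans (le_trans ?_ havg')
    exact mul_le_mul_of_nonneg_right hdeg (Nat.cast_nonneg _))
  have hbad := good_count_bad B hB hb hT1 hTb u
  rw [← hI] at hbad
  have hbad' : (b : ℝ) * ((I.filter (fun t => u ∈ t.biUnion id)).card : ℝ) ≤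
      (T : ℝ) * ((b.choose T : ℕ) : ℝ) := by exact_mod_cast hbad
  have hb0 : (0 : ℝ) < b := by
    have : 0 < b := by omega
    exact_mod_cast this
  have hbad2 : ((I.filter (fun t => u ∈ t.biUnion id)).card : ℝ) ≤ ε / 8 * ((b.choose T : ℕ) : ℝ) := by
    have hc0 : (0 : ℝ) ≤ ((b.choose T : ℕ) : ℝ) := Nat.cast_nonneg _
    have h1 : (T : ℝ) * ((b.choose T : ℕ) : ℝ) ≤ (ε * b / 8) * ((b.choose T : ℕ) : ℝ) :=
      mul_le_mul_of_nonneg_right (by linarith) hc0
    have h2 : (b : ℝ) * ((I.filter (fun t => u ∈ t.biUnion id)).card : ℝ) ≤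
        (b : ℝ) * (ε / 8 * ((b.choose T : ℕ) : ℝ)) := by
      refine (hbad'.trans h1).trans (le_of_eq (by ring))
    exact le_of_mul_le_mul_left h2 hb0
  have hsplit : (I.filter (fun t => (y + ε / 2 / 2) * D ≤ f t)).card ≤
      (I.filter (fun t => u ∉ t.biUnion id ∧ (y + ε / 4) * D ≤ f t)).card +
      (I.filter (fun t => u ∈ t.biUnion id)).card := by
    rw [← Finset.card_union_of_disjoint]
    · apply Finset.card_le_card
      intro t ht
      rw [mem_filter] at ht
      rw [mem_union, mem_filter, mem_filter]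
      by_cases hu : u ∈ t.biUnion id
      · right; exact ⟨ht.1, hu⟩
      · left
        refine ⟨ht.1, hu, ?_⟩
        have : (y + ε / 2 / 2) = y + ε / 4 := by ring
        rw [← this]; exact ht.2
    · rw [Finset.disjoint_left]
      intro t ht ht'
      rw [mem_filter] at ht ht'
      exact ht.2.1 ht'.2
  have hsplit' : ((I.filter (fun t => (y + ε / 2 / 2) * D ≤ f t)).card : ℝ) ≤
      ((I.filter (fun t => u ∉ t.biUnion id ∧ (y + ε / 4) * D ≤ f t)).card : ℝ) +
      ((I.filter (fun t => u ∈ t.biUnion id)).card : ℝ) := by exact_mod_cast hsplit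
  rw [hIc] at hm
  have e1 : ε / 2 / 2 * ((b.choose T : ℕ) : ℝ) = ε / 8 * ((b.choose T : ℕ) : ℝ) +
      ε / 8 * ((b.choose T : ℕ) : ℝ) := by ring
  rw [e1] at hm
  linarith

open Classical in
/-- double counting over `U` and `t`, then pigeonhole over the possible links (all links inside
`t.biUnion id` are subsets of `powersetCard (k-1) (t.biUnion id)`, which has `C(kT,k-1)` elements,
so there are at most `2^C(kT,k-1)` of them). -/
theorem pigeon {n k T b : ℕ} (hk : 2 ≤ k) (y ε : ℝ) (hy : 0 < y) (hε : 0 < ε)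
    (H : Finset (Finset (Fin n)))
    (B : Finset (Finset (Fin n))) (hB : Matching B) (hBk : ∀ e ∈ B, e.card = k) (hb : B.card = b)
    (hTb : T ≤ b) (U : Finset (Fin n))
    (hgood : ∀ u ∈ U, ε / 8 * ((b.choose T : ℕ) : ℝ) ≤
      (((B.powersetCard T).filter (fun t => u ∉ t.biUnion id ∧
        (y + ε / 4) * (((k * T).choose (k - 1) : ℕ) : ℝ) ≤
          ((link H (k - 1) u (t.biUnion id)).card : ℝ))).card : ℝ))
    (hU : (T : ℝ) * 2 ^ ((k * T).choose (k - 1)) < ε / 8 * (U.card : ℝ)) :
    ∃ t ∈ B.powersetCard T, ∃ L : Finset (Finset (Fin n)), ∃ V ⊆ U, V.card = T + 1 ∧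
      Disjoint V (t.biUnion id) ∧ (∀ v ∈ V, link H (k - 1) v (t.biUnion id) = L) ∧
      (y + ε / 4) * (((k * T).choose (k - 1) : ℕ) : ℝ) ≤ (L.card : ℝ) := by

  set P := B.powersetCard T with hP
  set good : Fin n → Finset (Finset (Fin n)) → Prop := fun u t => u ∉ t.biUnion id ∧
        (y + ε / 4) * (((k * T).choose (k - 1) : ℕ) : ℝ) ≤
          ((link H (k - 1) u (t.biUnion id)).card : ℝ) with hgd
  have hPc : P.card = b.choose T := by rw [hP, card_powersetCard, hb]
  have hPpos : 0 < P.card := by rw [hPc]; exact Nat.choose_pos hTb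
  have hPne : P.Nonempty := card_pos.1 hPpos
  -- double counting
  have hdc : ∑ t ∈ P, (U.filter (fun u => good u t)).card =
      ∑ u ∈ U, (P.filter (fun t => good u t)).card := by
    simp only [card_filter]
    exact sum_comm
  have hsum : ε / 8 * (U.card : ℝ) * (P.card : ℝ) ≤
      ∑ t ∈ P, ((U.filter (fun u => good u t)).card : ℝ) := by
    have h1 : ∑ t ∈ P, ((U.filter (fun u => good u t)).card : ℝ) =
        ∑ u ∈ U, ((P.filter (fun t => good u t)).card : ℝ) := by
      exact_mod_cast hdc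
    rw [h1]
    have h2 : ∑ _u ∈ U, (ε / 8 * ((b.choose T : ℕ) : ℝ)) ≤
        ∑ u ∈ U, ((P.filter (fun t => good u t)).card : ℝ) :=
      sum_le_sum fun u hu => hgood u hu
    rw [sum_const, nsmul_eq_mul, ← hPc] at h2
    linarith
  obtain ⟨t, htP, ht⟩ : ∃ t ∈ P, ε / 8 * (U.card : ℝ) ≤
      ((U.filter (fun u => good u t)).card : ℝ) := by
    by_contra hcon
    push Not at hcon
    have h3 := sum_lt_sum_of_nonempty hPne hcon
    rw [sum_const, nsmul_eq_mul] at h3
    linarith
  set X := t.biUnion id with hX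
  have htB : t ⊆ B ∧ t.card = T := mem_powersetCard.1 htP
  have hXc : X.card ≤ k * T := by
    have h1 : X.card ≤ ∑ e ∈ t, (id e).card := card_biUnion_le
    have h2 : ∑ e ∈ t, (id e : Finset (Fin n)).card = ∑ _e ∈ t, k :=
      sum_congr rfl fun e he => hBk e (htB.1 he)
    rw [h2, sum_const, htB.2, smul_eq_mul, mul_comm] at h1
    exact h1
  set Tg := (X.powersetCard (k - 1)).powerset with hTg
  have hTgc : Tg.card ≤ 2 ^ ((k * T).choose (k - 1)) := by
    rw [hTg, card_powerset, card_powersetCard]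
    exact Nat.pow_le_pow_right (by norm_num) (Nat.choose_le_choose _ hXc)
  have hmaps : ∀ u ∈ U.filter (fun u => good u t), link H (k - 1) u X ∈ Tg := by
    intro u _
    rw [hTg, mem_powerset]
    exact filter_subset _ _
  have hlt : Tg.card * T < (U.filter (fun u => good u t)).card := by
    have h1 : ((Tg.card * T : ℕ) : ℝ) < ((U.filter (fun u => good u t)).card : ℝ) := by
      push_cast
      have h2 : (Tg.card : ℝ) ≤ 2 ^ ((k * T).choose (k - 1)) := by exact_mod_cast hTgc
      have h3 : (Tg.card : ℝ) * T ≤ 2 ^ ((k * T).choose (k - 1)) * T :=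
        mul_le_mul_of_nonneg_right h2 (Nat.cast_nonneg _)
      linarith
    exact_mod_cast h1
  obtain ⟨L, -, hL⟩ := exists_lt_card_fiber_of_mul_lt_card_of_maps_to hmaps hlt
  obtain ⟨V, hV, hVc⟩ := exists_subset_card_eq (Nat.succ_le_of_lt hL)
  have hVm : ∀ v ∈ V, v ∈ U ∧ good v t ∧ link H (k - 1) v X = L := by
    intro v hv
    have h1 := hV hv
    rw [mem_filter, mem_filter] at h1
    exact ⟨h1.1.1, h1.1.2, h1.2⟩
  refine ⟨t, htP, L, V, fun v hv => (hVm v hv).1, hVc, ?_, fun v hv => (hVm v hv).2.2, ?_⟩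
  · rw [disjoint_left]
    intro v hv
    exact (hVm v hv).2.1.1
  · obtain ⟨v, hv⟩ : V.Nonempty := card_pos.1 (by omega)
    have h1 := (hVm v hv).2.1.2
    rw [← hX, (hVm v hv).2.2] at h1
    exact h1

theorem near_perfect_card {n k : ℕ} (M : Finset (Finset (Fin n))) (hm : Matching M)
    (hk : ∀ e ∈ M, e.card = k) : (M.biUnion id).card = M.card * k := by
  have h := card_biUnion (s := M) (t := id) (fun e he e' he' hne => hm e he e' he' hne)
  rw [h, Finset.sum_congr rfl (fun e he => (hk e he : (id e).card = k)), sum_const, smul_eq_mul]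

/-- prove this one (all lemmas above may be used without proof) -/
theorem near_perfect (k : ℕ) (hk : 3 ≤ k) (y : ℝ) (hy0 : 0 < y) (hy1 : y < 1)
    (hy : y ^ (k - 1) = 1 - y) (ε : ℝ) (hε : 0 < ε) :
    ∃ K b0 : ℕ, ∀ n b : ℕ, b0 ≤ b → ∀ W : Finset (Fin n), W.card = k * b →
      ∀ H : Finset (Finset (Fin n)), (∀ e ∈ H, e.card = k) → (∀ e ∈ H, e ⊆ W) →
      (∀ v ∈ W, (y + ε) * (((k * b - 1).choose (k - 1) : ℕ) : ℝ) ≤ (deg H v : ℝ)) →
      ∃ M : Finset (Finset (Fin n)), M ⊆ H ∧ Matching M ∧ (W \ M.biUnion id).card ≤ K := by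
  obtain ⟨T0a, hTa⟩ := choose_T (k - 1) (by omega) y hy0 hy1 hy (ε / 4) (by positivity)
  obtain ⟨T0b, hTb⟩ := numeric k (k - 1) (by omega) (by omega) y ε hy0 hε
  set T := max T0a T0b with hT
  obtain ⟨b0, hb0⟩ := hTb T (le_max_right _ _)
  have hTa' := hTa T (le_max_left _ _)
  refine ⟨⌈8 * (T : ℝ) * 2 ^ ((k * T).choose (k - 1)) / ε⌉₊, b0, ?_⟩
  intro n b hbb W hW H hHk hHW hdeg
  obtain ⟨hrT, hTb', hTb2, hnum⟩ := hb0 b hbb
  classical
  obtain ⟨M, hM, hmax⟩ := Finset.exists_max_image (H.powerset.filter Matching) Finset.card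
    ⟨∅, by simp [Matching]⟩
  rw [mem_filter, mem_powerset] at hM
  obtain ⟨hMH, hMm⟩ := hM
  refine ⟨M, hMH, hMm, ?_⟩
  by_contra hK
  push Not at hK
  set U := W \ M.biUnion id with hU
  have hMW : M.biUnion id ⊆ W := by
    rw [biUnion_subset]
    intro e he
    exact hHW e (hMH he)
  have hMcard : (M.biUnion id).card = M.card * k :=
    near_perfect_card M hMm (fun e he => hHk e (hMH he))
  have hMb : M.card * k ≤ k * b := by
    rw [← hMcard, ← hW]
    exact card_le_card hMW
  have hMb' : M.card ≤ b := by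
    have : M.card * k ≤ b * k := by linarith
    exact Nat.le_of_mul_le_mul_right this (by omega)
  have hUcard : U.card = k * (b - M.card) := by
    rw [hU, card_sdiff_of_subset hMW, hMcard, hW, Nat.mul_sub, mul_comm M.card k]
  obtain ⟨BU, hBUm, hBUk, hBUU, hBUc⟩ := exists_blocks k (b - M.card) (by omega) U hUcard
  have hdisj : ∀ e ∈ M, ∀ e' ∈ BU, Disjoint e e' := by
    intro e he e' he'
    have h1 : e ⊆ M.biUnion id := subset_biUnion_of_mem id he
    have h2 : e' ⊆ U := by
      rw [← hBUU]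
      exact subset_biUnion_of_mem id he'
    exact disjoint_of_subset_left h1 (disjoint_of_subset_right h2 disjoint_sdiff)
  have hB : Matching (M ∪ BU) := by
    intro e he e' he' hne
    rw [mem_union] at he he'
    rcases he with he | he <;> rcases he' with he' | he'
    · exact hMm e he e' he' hne
    · exact hdisj e he e' he'
    · exact (hdisj e' he' e he).symm
    · exact hBUm e he e' he' hne
  have hBk : ∀ e ∈ M ∪ BU, e.card = k := by
    intro e he
    rw [mem_union] at he
    rcases he with he | he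
    · exact hHk e (hMH he)
    · exact hBUk e he
  have hMBU : Disjoint M BU := by
    rw [disjoint_left]
    intro e he he'
    have h1 := hdisj e he e he'
    rw [disjoint_self] at h1
    have h2 := hBUk e he'
    rw [h1] at h2
    simp at h2
    omega
  have hbc : (M ∪ BU).card = b := by
    rw [card_union_of_disjoint hMBU, hBUc]
    omega
  have hBW : (M ∪ BU).biUnion id = W := by
    rw [union_biUnion, hBUU, hU]
    exact union_sdiff_of_subset hMW
  have hgood : ∀ u ∈ U, ε / 8 * ((b.choose T : ℕ) : ℝ) ≤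
      ((((M ∪ BU).powersetCard T).filter (fun t => u ∉ t.biUnion id ∧
        (y + ε / 4) * (((k * T).choose (k - 1) : ℕ) : ℝ) ≤
          ((link H (k - 1) u (t.biUnion id)).card : ℝ))).card : ℝ) := by
    intro u hu
    have huW : u ∈ W := (mem_sdiff.1 hu).1
    refine good_count (by omega) y ε hy0 hε H (M ∪ BU) hB hBk hbc hrT hTb' hTb2 hnum u ?_
    refine (hdeg u huW).trans ?_
    rw [hBW]
    have : deg H u ≤ (link H (k - 1) u W).card := by
      unfold deg link
      refine card_le_card_of_injOn (fun e => e.erase u) ?_ ?_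
      · intro e he
        have he' := mem_filter.1 (mem_coe.1 he)
        have h1 : insert u (e.erase u) = e := insert_erase he'.2
        refine mem_coe.2 (mem_filter.2 ⟨mem_powersetCard.2 ⟨?_, ?_⟩, ?_⟩)
        · exact (erase_subset _ _).trans (hHW e he'.1)
        · rw [card_erase_of_mem he'.2, hHk e he'.1]
        · change insert u (e.erase u) ∈ H
          rw [h1]; exact he'.1
      · intro e he e' he' hee
        have h1 := (mem_filter.1 (mem_coe.1 he)).2
        have h2 := (mem_filter.1 (mem_coe.1 he')).2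
        have h3 : e.erase u = e'.erase u := hee
        rw [← insert_erase h1, h3, insert_erase h2]
    exact_mod_cast this
  have hUbig : (T : ℝ) * 2 ^ ((k * T).choose (k - 1)) < ε / 8 * (U.card : ℝ) := by
    have h1 : 8 * (T : ℝ) * 2 ^ ((k * T).choose (k - 1)) / ε < (U.card : ℝ) :=
      lt_of_le_of_lt (Nat.le_ceil _) (by exact_mod_cast hK)
    rw [div_lt_iff₀ hε] at h1
    linarith
  obtain ⟨t, ht, L, V, hVU, hVc, hVt, hVL, hLc⟩ := pigeon (by omega) y ε hy0 hε H (M ∪ BU) hB hBk
    hbc hTb' U hgood hUbig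
  rw [mem_powersetCard] at ht
  obtain ⟨htB, htT⟩ := ht
  have hXc : (t.biUnion id).card = (k - 1 + 1) * T := by
    rw [near_perfect_card t (fun e he e' he' hne => hB e (htB he) e' (htB he') hne)
      (fun e he => hBk e (htB he)), htT]
    rw [mul_comm]
    congr 1
    omega
  obtain ⟨v0, hv0⟩ : V.Nonempty := by
    rw [← card_pos, hVc]; omega
  have hLprop : ∀ S ∈ L, S.card = k - 1 ∧ S ⊆ t.biUnion id := by
    intro S hS
    rw [← hVL v0 hv0] at hS
    unfold link at hS
    rw [mem_filter, mem_powersetCard] at hS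
    exact ⟨hS.1.2, hS.1.1⟩
  obtain ⟨M0, hM0L, hM0c, hM0m⟩ := hTa' n (t.biUnion id) hXc L (fun e he => (hLprop e he).1)
    (fun e he => (hLprop e he).2) (by
      have hk1 : k - 1 + 1 = k := by omega
      rw [hk1]
      exact hLc)
  obtain ⟨M', hM'H, hM'm, hlt⟩ := augment H hHk (by omega) M BU hMH hB t htB htT V
    (by
      rw [disjoint_left]
      intro v hv hv'
      exact (mem_sdiff.1 (hVU hv)).2 hv')
    hVt hVc M0 hM0c hM0m (fun S hS => hLprop S (hM0L hS)) (by
      intro v hv S hS
      have h1 := hM0L hS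
      rw [← hVL v hv] at h1
      unfold link at h1
      exact (mem_filter.1 h1).2)
  have := hmax M' (mem_filter.2 ⟨mem_powerset.2 hM'H, hM'm⟩)
  omega

end Pool.Agent.FracEM.PMT
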