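import Mathlib
import Pool.Agent.FracEM.PM.Near
import Pool.Agent.FracEM.PM.Abs2

set_option autoImplicit false

namespace Pool.Agent.FracEM.PMT

open Finset

theorem pair_card {n k : ℕ} (hk : 2 ≤ k) (v z : Fin n) (hvz : v ≠ z) (H : Finset (Finset (Fin n)))
    (hH : ∀ e ∈ H, e.card = k) :
    (H.filter (fun e => v ∈ e ∧ z ∈ e)).card ≤ (n - 2).choose (k - 2) := by
  have h1 : (H.filter (fun e => v ∈ e ∧ z ∈ e)).card ≤
      (((univ : Finset (Fin n)) \ {v, z}).powersetCard (k - 2)).card := by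
    apply Finset.card_le_card_of_injOn (fun e => e \ {v, z})
    · intro e he
      rw [Finset.mem_coe, mem_filter] at he
      obtain ⟨he, hv, hz⟩ := he
      rw [Finset.mem_coe, mem_powersetCard]
      refine ⟨?_, ?_⟩
      · intro x hx
        rw [mem_sdiff] at hx ⊢
        exact ⟨mem_univ _, hx.2⟩
      · rw [card_sdiff_of_subset, hH e he, card_pair hvz]
        intro x hx
        rw [mem_insert, mem_singleton] at hx
        rcases hx with rfl | rfl
        · exact hv
        · exact hz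
    · intro e he e' he' h
      rw [Finset.mem_coe, mem_filter] at he he'
      obtain ⟨-, hv, hz⟩ := he
      obtain ⟨-, hv', hz'⟩ := he'
      have h : e \ {v, z} = e' \ {v, z} := h
      ext x
      by_cases hx : x ∈ ({v, z} : Finset (Fin n))
      · rw [mem_insert, mem_singleton] at hx
        rcases hx with rfl | rfl
        · exact ⟨fun _ => hv', fun _ => hv⟩
        · exact ⟨fun _ => hz', fun _ => hz⟩
      · have h2 : x ∈ e \ {v, z} ↔ x ∈ e' \ {v, z} := by rw [h]
        rw [mem_sdiff, mem_sdiff] at h2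
        constructor
        · intro h3
          exact (h2.mp ⟨h3, hx⟩).1
        · intro h3
          exact (h2.mpr ⟨h3, hx⟩).1
  refine h1.trans (le_of_eq ?_)
  rw [card_powersetCard, card_sdiff_of_subset (subset_univ _), card_pair hvz, card_univ, Fintype.card_fin]

theorem bad_card {n k : ℕ} (hk : 2 ≤ k) (H : Finset (Finset (Fin n)))
    (hH : ∀ e ∈ H, e.card = k) (Z : Finset (Fin n)) (v : Fin n) (hv : v ∉ Z) :
    deg H v ≤ deg (H.filter (fun e => e ⊆ univ \ Z)) v + Z.card * (n - 2).choose (k - 2) := by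
  have h1 : H.filter (fun e => v ∈ e) ⊆ ((H.filter (fun e => e ⊆ univ \ Z)).filter (fun e => v ∈ e)) ∪
      Z.biUnion (fun z => H.filter (fun e => v ∈ e ∧ z ∈ e)) := by
    intro e he
    rw [mem_filter] at he
    by_cases h : e ⊆ univ \ Z
    · apply mem_union_left
      rw [mem_filter, mem_filter]
      exact ⟨⟨he.1, h⟩, he.2⟩
    · apply mem_union_right
      rw [not_subset] at h
      obtain ⟨z, hz, hz2⟩ := h
      rw [mem_biUnion]
      refine ⟨z, ?_, ?_⟩
      · by_contra h3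
        exact hz2 (mem_sdiff.mpr ⟨mem_univ _, h3⟩)
      · rw [mem_filter]
        exact ⟨he.1, he.2, hz⟩
  unfold deg
  calc (H.filter (fun e => v ∈ e)).card
      ≤ (((H.filter (fun e => e ⊆ univ \ Z)).filter (fun e => v ∈ e)) ∪
      Z.biUnion (fun z => H.filter (fun e => v ∈ e ∧ z ∈ e))).card := card_le_card h1
    _ ≤ _ := card_union_le _ _
    _ ≤ _ := by
        apply Nat.add_le_add_left
        apply card_biUnion_le_card_mul
        intro z hz
        apply pair_card hk v z _ H hH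
        rintro rfl
        exact hv hz

open Classical in
/-- degrees after removing a small vertex set `Z` -/
theorem deg_remove {n k w : ℕ} (hk : 2 ≤ k) (hn : 2 ≤ n) (H : Finset (Finset (Fin n)))
    (hH : ∀ e ∈ H, e.card = k) (Z : Finset (Fin n)) (y ε θ : ℝ) (hθ : 0 ≤ θ)
    (hy : 0 ≤ y) (hε : 0 ≤ ε) (hθk : 4 * k * θ ≤ ε)
    (hZ : (Z.card : ℝ) ≤ θ * n) (hw : w ≤ n)
    (hdeg : ∀ v, (y + ε) * (((n - 1).choose (k - 1) : ℕ) : ℝ) ≤ (deg H v : ℝ))
    (v : Fin n) (hv : v ∉ Z) :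
    (y + ε / 2) * (((w - 1).choose (k - 1) : ℕ) : ℝ) ≤
      (deg (H.filter (fun e => e ⊆ univ \ Z)) v : ℝ) := by
  have h0 : deg H v ≤ deg (H.filter (fun e => e ⊆ univ \ Z)) v + Z.card * (n - 2).choose (k - 2) := by
    have := bad_card hk H hH Z v hv
    convert this
  have h1 : (deg H v : ℝ) ≤ (deg (H.filter (fun e => e ⊆ univ \ Z)) v : ℝ) +
      (Z.card : ℝ) * (((n - 2).choose (k - 2) : ℕ) : ℝ) := by
    exact_mod_cast h0
  have h2 := hdeg v
  set c1 : ℝ := (((n - 1).choose (k - 1) : ℕ) : ℝ) with hc1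
  set c2 : ℝ := (((n - 2).choose (k - 2) : ℕ) : ℝ) with hc2
  have hc10 : 0 ≤ c1 := Nat.cast_nonneg _
  have hc20 : 0 ≤ c2 := Nat.cast_nonneg _
  have hN : (n - 1) * (n - 2).choose (k - 2) = (n - 1).choose (k - 1) * (k - 1) := by
    obtain ⟨m, rfl⟩ : ∃ m, n = m + 2 := ⟨n - 2, by omega⟩
    obtain ⟨l, rfl⟩ : ∃ l, k = l + 2 := ⟨k - 2, by omega⟩
    have := Nat.add_one_mul_choose_eq m l
    simpa using this
  have hR : ((n : ℝ) - 1) * c2 = c1 * ((k : ℝ) - 1) := by
    have : (((n - 1) * (n - 2).choose (k - 2) : ℕ) : ℝ) = (((n - 1).choose (k - 1) * (k - 1) : ℕ) : ℝ) := by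
      rw [hN]
    rw [Nat.cast_mul, Nat.cast_mul, Nat.cast_sub (by omega : 1 ≤ n), Nat.cast_sub (by omega : 1 ≤ k),
      Nat.cast_one] at this
    exact this
  have hn2 : (2 : ℝ) ≤ (n : ℝ) := by exact_mod_cast hn
  have hk2 : (2 : ℝ) ≤ (k : ℝ) := by exact_mod_cast hk
  have hb : (Z.card : ℝ) * c2 ≤ (ε / 2) * c1 := by
    have h3 : (Z.card : ℝ) * c2 ≤ θ * n * c2 := mul_le_mul_of_nonneg_right hZ hc20
    have h4 : (n : ℝ) * c2 ≤ 2 * (((n : ℝ) - 1) * c2) := by nlinarith
    have h5 : θ * n * c2 ≤ θ * (2 * (c1 * ((k : ℝ) - 1))) := by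
      rw [mul_assoc]
      apply mul_le_mul_of_nonneg_left _ hθ
      rw [← hR]; exact h4
    have h6 : θ * (2 * (c1 * ((k : ℝ) - 1))) ≤ (ε / 2) * c1 := by
      have h7 : θ * (2 * (c1 * ((k : ℝ) - 1))) = (2 * θ * ((k : ℝ) - 1)) * c1 := by ring
      rw [h7]
      apply mul_le_mul_of_nonneg_right _ hc10
      nlinarith
    linarith
  have hwc : (((w - 1).choose (k - 1) : ℕ) : ℝ) ≤ c1 := by
    rw [hc1]
    exact_mod_cast Nat.choose_le_choose (k - 1) (by omega : w - 1 ≤ n - 1)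
  have h8 : (y + ε / 2) * (((w - 1).choose (k - 1) : ℕ) : ℝ) ≤ (y + ε / 2) * c1 :=
    mul_le_mul_of_nonneg_left hwc (by positivity)
  have h9 : (y + ε / 2) * c1 = (y + ε) * c1 - (ε / 2) * c1 := by ring
  linarith

/-- the root is at least one half -/
theorem root_half (r : ℕ) (hr : 1 ≤ r) (y : ℝ) (hy0 : 0 < y) (hy1 : y < 1)
    (hy : y ^ r = 1 - y) : 1 / 2 ≤ y := by
  have h : y ^ r ≤ y := pow_le_of_le_one hy0.le hy1.le (by omega)
  linarith

/-- logarithmic upper bound for the root. Sketch: suppose z = 1-y < log k/(2k) (≤ 1/(2e)).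
Then (1-z)^(k-1) ≥ (1-z)^k ≥ exp(-k z/(1-z)) > log k/(2k) > z, contradiction. -/
theorem root_log (k : ℕ) (hk : 4 ≤ k) (y : ℝ) (hy0 : 0 < y) (hy1 : y < 1)
    (hy : y ^ (k - 1) = 1 - y) : y ≤ 1 - Real.log k / (2 * k) := by
  by_contra h
  push Not at h
  have hk4 : (4 : ℝ) ≤ (k : ℝ) := by exact_mod_cast hk
  have hk0 : (0 : ℝ) < (k : ℝ) := by linarith
  set L : ℝ := Real.log k with hL
  have hL0 : 0 < L := Real.log_pos (by linarith)
  have hexp : Real.exp L = k := Real.exp_log hk0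
  have hL2 : L ≤ k / 2 := by
    have h1 : Real.log ((k : ℝ) / 2) ≤ (k : ℝ) / 2 - 1 := Real.log_le_sub_one_of_pos (by positivity)
    rw [Real.log_div hk0.ne' (by norm_num)] at h1
    have h2 : Real.log 2 < 1 := by
      have := Real.log_two_lt_d9
      linarith
    linarith
  set z : ℝ := 1 - y with hz
  have hz1 : z < L / (2 * k) := by linarith
  have hkz : k * z < L / 2 := by
    rw [lt_div_iff₀ (by positivity)] at hz1
    linarith
  have hz4 : z < 1 / 4 := by
    nlinarith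
  have hy34 : 3 / 4 < y := by linarith
  have hz0 : 0 < z := by linarith
  have hlog : 1 - y⁻¹ ≤ Real.log y := Real.one_sub_inv_le_log_of_pos hy0
  have h5 : -(2 * L / 3) ≤ k * Real.log y := by
    have h6 : (k : ℝ) * (1 - y⁻¹) ≤ k * Real.log y := mul_le_mul_of_nonneg_left hlog hk0.le
    have h7 : (k : ℝ) * (1 - y⁻¹) = -(k * z / y) := by
      rw [hz]; field_simp; ring
    have h8 : k * z / y ≤ 2 * L / 3 := by
      rw [div_le_iff₀ hy0]
      nlinarith
    linarith
  have h9 : Real.exp (-(2 * L / 3)) ≤ y ^ k := by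
    have h10 : y ^ k = Real.exp (k * Real.log y) := by
      rw [mul_comm, Real.exp_mul, Real.exp_log hy0, Real.rpow_natCast]
    rw [h10]
    exact Real.exp_le_exp.mpr h5
  have h11 : y ^ k ≤ y ^ (k - 1) := pow_le_pow_of_le_one hy0.le hy1.le (by omega)
  have h12 : Real.exp (-(2 * L / 3)) < L / (2 * k) := by
    rw [hy] at h11
    linarith
  have h13 : (k : ℝ) * Real.exp (-(2 * L / 3)) < L / 2 := by
    rw [lt_div_iff₀ (by positivity)] at h12
    linarith
  rw [← hexp, ← Real.exp_add] at h13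
  have h14 : L + -(2 * L / 3) = L / 3 := by ring
  rw [h14] at h13
  have h15 := Real.quadratic_le_exp_of_nonneg (x := L / 3) (by positivity)
  nlinarith [sq_nonneg (L - 3 / 2)]

/-- prove this one (everything above may be used without proof).
WLOG nothing; take `K, b0` from `near_perfect` at `ε/2`, `R = K`, `θ = min (ε/(4k)) (1/2)`,
`η = ε` in `many_abs` (1/2 ≤ y), `Z = univ.biUnion Zj`, `W = univ \ Z`, `H' = H.filter (⊆ W)`,
`|W| = k*b` (k ∣ n, k ∣ |Z| by abs_multi with q=0 and PMon_card), leftover `U` has card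
`k*q ≤ K`, absorb by abs_multi, then PMon_union with the near-perfect matching. -/
theorem perfect (k : ℕ) (hk : 3 ≤ k) (y : ℝ) (hy0 : 0 < y) (hy1 : y < 1)
    (hy : y ^ (k - 1) = 1 - y) (ε : ℝ) (hε : 0 < ε) :
    ∃ n0 : ℕ, ∀ n : ℕ, n0 ≤ n → k ∣ n →
      ∀ H : Finset (Finset (Fin n)), (∀ e ∈ H, e.card = k) →
      (∀ v, (y + ε) * (((n - 1).choose (k - 1) : ℕ) : ℝ) ≤ (deg H v : ℝ)) →
      PMon H univ := by
  classical
  have hk0 : 0 < k := by omega
  have hkr : (0 : ℝ) < k := by exact_mod_cast hk0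
  obtain ⟨K, b0, hnp⟩ := near_perfect k hk y hy0 hy1 hy (ε / 2) (half_pos hε)
  have hθ : 0 < min (ε / (4 * k)) (1 / 2 : ℝ) := lt_min (by positivity) (by norm_num)
  obtain ⟨n1, hma⟩ := many_abs k (by omega) ε hε K (min (ε / (4 * k)) (1 / 2 : ℝ)) hθ
  set θ : ℝ := min (ε / (4 * k)) (1 / 2 : ℝ) with hθdef
  have hθ1 : 4 * k * θ ≤ ε := by
    have h1 : θ ≤ ε / (4 * k) := min_le_left _ _
    have h2 : 4 * k * θ ≤ 4 * k * (ε / (4 * k)) := mul_le_mul_of_nonneg_left h1 (by positivity)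
    have h3 : 4 * k * (ε / (4 * k)) = ε := by field_simp
    linarith
  have hθ2 : θ ≤ 1 / 2 := min_le_right _ _
  have hyhalf : 1 / 2 ≤ y := root_half (k - 1) (by omega) y hy0 hy1 hy
  refine ⟨max n1 (max 2 (2 * (k * b0))), ?_⟩
  intro n hn hkn H hH hdeg
  have hn1 : n1 ≤ n := (le_max_left _ _).trans hn
  have hn2 : 2 ≤ n := ((le_max_left _ _).trans (le_max_right _ _)).trans hn
  have hn3 : 2 * (k * b0) ≤ n := ((le_max_right _ _).trans (le_max_right _ _)).trans hn
  obtain ⟨Z, hdis, habs, hcard⟩ := hma n hn1 H hH (by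
    intro v
    refine le_trans ?_ (hdeg v)
    exact mul_le_mul_of_nonneg_right (by linarith) (by positivity))
  have hZ0 : PMon H (univ.biUnion Z ∪ ∅) :=
    abs_multi (k := k) (by omega) H K Z hdis habs 0 (Nat.zero_le _) ∅ (by simp) (by simp)
  rw [Finset.union_empty] at hZ0
  have hkZ : k ∣ (univ.biUnion Z).card := PMon_card H hH _ hZ0
  set ZZ : Finset (Fin n) := univ.biUnion Z with hZZ
  set W : Finset (Fin n) := univ \ ZZ with hW
  have hWc : W.card + ZZ.card = n := by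
    have := Finset.card_sdiff_add_card_eq_card (Finset.subset_univ ZZ)
    rw [Finset.card_univ, Fintype.card_fin] at this
    exact this
  have hkW : k ∣ W.card := by
    have h1 : k ∣ W.card + ZZ.card := by rw [hWc]; exact hkn
    exact (Nat.dvd_add_left hkZ).1 h1
  obtain ⟨b, hb⟩ := hkW
  have hbb : b0 ≤ b := by
    have h1 : (ZZ.card : ℝ) ≤ n / 2 := by
      have h2 : θ * n ≤ 1 / 2 * n := mul_le_mul_of_nonneg_right hθ2 (Nat.cast_nonneg n)
      linarith
    have h2 : 2 * ZZ.card ≤ n := by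
      have h3 : (2 : ℝ) * ZZ.card ≤ n := by linarith
      exact_mod_cast h3
    have h4 : k * b0 ≤ k * b := by
      rw [← hb]
      omega
    exact Nat.le_of_mul_le_mul_left h4 hk0
  obtain ⟨M, hMH, hMm, hMc⟩ := hnp n b hbb W hb (H.filter (fun e => e ⊆ univ \ ZZ))
    (fun e he => hH e (Finset.mem_filter.1 he).1) (fun e he => (Finset.mem_filter.1 he).2)
    (by
      intro v hv
      have hvZ : v ∉ ZZ := (Finset.mem_sdiff.1 hv).2
      have := deg_remove (w := k * b) (by omega) hn2 H hH ZZ y ε θ hθ.le hy0.le hε.le hθ1 hcard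
        (by rw [← hb]; omega) hdeg v hvZ
      convert this using 2)
  have hMH' : M ⊆ H := fun e he => (Finset.mem_filter.1 (hMH he)).1
  have hMW : M.biUnion id ⊆ W := by
    intro x hx
    obtain ⟨e, he, hxe⟩ := Finset.mem_biUnion.1 hx
    exact (Finset.mem_filter.1 (hMH he)).2 hxe
  have hPM : PMon H (M.biUnion id) := ⟨M, hMH', hMm, rfl⟩
  have hkM : k ∣ (M.biUnion id).card := PMon_card H hH _ hPM
  set U : Finset (Fin n) := W \ M.biUnion id with hU
  have hUc : U.card + (M.biUnion id).card = k * b := by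
    rw [← hb]
    exact Finset.card_sdiff_add_card_eq_card hMW
  have hkU : k ∣ U.card := by
    have h1 : k ∣ U.card + (M.biUnion id).card := by rw [hUc]; exact Dvd.intro _ rfl
    exact (Nat.dvd_add_left hkM).1 h1
  obtain ⟨q, hq⟩ := hkU
  have hqK : q ≤ K := by
    calc q ≤ k * q := Nat.le_mul_of_pos_left q hk0
      _ = U.card := hq.symm
      _ ≤ K := hMc
  have hdisU : ∀ j, Disjoint U (Z j) := by
    intro j
    rw [Finset.disjoint_left]
    intro x hx hxZ
    have h1 : x ∈ W := (Finset.mem_sdiff.1 hx).1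
    have h2 : x ∉ ZZ := (Finset.mem_sdiff.1 h1).2
    exact h2 (Finset.mem_biUnion.2 ⟨j, Finset.mem_univ _, hxZ⟩)
  have habs2 : PMon H (ZZ ∪ U) :=
    abs_multi (k := k) (by omega) H K Z hdis habs q hqK U hq hdisU
  have hfin := PMon_union H (ZZ ∪ U) (M.biUnion id) (by
    rw [Finset.disjoint_left]
    intro x hx hxM
    rcases Finset.mem_union.1 hx with h | h
    · exact (Finset.mem_sdiff.1 (hMW hxM)).2 h
    · exact (Finset.mem_sdiff.1 h).2 hxM) habs2 hPM
  have huniv : ZZ ∪ U ∪ M.biUnion id = univ := by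
    ext x
    simp only [Finset.mem_union, Finset.mem_univ, iff_true]
    by_cases h1 : x ∈ ZZ
    · exact Or.inl (Or.inl h1)
    · have h2 : x ∈ W := Finset.mem_sdiff.2 ⟨Finset.mem_univ _, h1⟩
      by_cases h3 : x ∈ M.biUnion id
      · exact Or.inr h3
      · exact Or.inl (Or.inr (Finset.mem_sdiff.2 ⟨h2, h3⟩))
  rw [huniv] at hfin
  exact hfin

end Pool.Agent.FracEM.PMT
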